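import Pool.Agent.TH822.DZ.Blk
import Pool.Agent.H345R2.AS.BZ
set_option autoImplicit false

/-!
# The density of the zeros
-/

open MeasureTheory Filter Topology Set

namespace Pool.Agent.TH822.DZ

noncomputable section

open scoped ComplexConjugate
open H370

/-- few zeros with real part in `(a, b]` -/
def Den (F : ℂ → ℂ) (a b : ℝ) : Prop := ∃ δ : ℝ, 0 < δ ∧ ∃ C T0 : ℝ, 0 < C ∧ 10 ≤ T0 ∧
  ∀ T : ℝ, T0 ≤ T → ∀ Z : Finset ℂ,
    (∀ s ∈ Z, F s = 0 ∧ a < s.re ∧ s.re ≤ b ∧ s.re < 1 ∧ 4 ≤ s.im ∧ s.im ≤ 4 * T) →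
    (Z.card : ℝ) ≤ C * (T ^ (1 - δ) * Real.log T)

/-- as `BZt` -/
def BZr (F : ℂ → ℂ) (τ : ℝ) : Prop := ∃ δ : ℝ, 0 < δ ∧ ∃ T0 : ℝ, ∀ T : ℝ, T0 ≤ T →
  ∀ H : ℝ, 0 ≤ H → H ≤ T →
  volume {t : ℝ | t ∈ Set.Icc T (2 * T) ∧ ∃ s : ℂ, F s = 0 ∧ 1 / 2 + τ < s.re ∧ s.re < 1 ∧
    (|s.im - t| ≤ 3 * Real.log T ∨ |s.im - (t + H)| ≤ 3 * Real.log T)} ≤
      ENNReal.ofReal (T ^ (1 - δ))

theorem Den.union {F : ℂ → ℂ} {a b c : ℝ} (h1 : Den F a c) (h2 : Den F c b) : Den F a b := by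
  classical
  obtain ⟨δ1, hδ1, C1, T1, hC1, hT1, h1⟩ := h1
  obtain ⟨δ2, hδ2, C2, T2, hC2, hT2, h2⟩ := h2
  refine ⟨min δ1 δ2, lt_min hδ1 hδ2, C1 + C2, max T1 T2, by positivity,
    hT1.trans (le_max_left _ _), fun T hT Z hZ => ?_⟩
  have hTT1 : T1 ≤ T := (le_max_left _ _).trans hT
  have hTT2 : T2 ≤ T := (le_max_right _ _).trans hT
  have hT10 : 10 ≤ T := hT1.trans hTT1
  have a1 := h1 T hTT1 (Z.filter (fun s => s.re ≤ c)) (fun s hs => by
    rw [Finset.mem_filter] at hs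
    obtain ⟨b1, b2, b3, b4, b5, b6⟩ := hZ s hs.1
    exact ⟨b1, b2, hs.2, b4, b5, b6⟩)
  have a2 := h2 T hTT2 (Z.filter (fun s => ¬ s.re ≤ c)) (fun s hs => by
    rw [Finset.mem_filter, not_le] at hs
    obtain ⟨b1, b2, b3, b4, b5, b6⟩ := hZ s hs.1
    exact ⟨b1, hs.2, b3, b4, b5, b6⟩)
  have hc : Z.card = (Z.filter (fun s => s.re ≤ c)).card +
      (Z.filter (fun s => ¬ s.re ≤ c)).card :=
    (Finset.card_filter_add_card_filter_not (s := Z) (fun s => s.re ≤ c)).symm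
  have hL : 0 ≤ Real.log T := Real.log_nonneg (by linarith)
  have e1 : T ^ (1 - δ1) ≤ T ^ (1 - min δ1 δ2) :=
    Real.rpow_le_rpow_of_exponent_le (by linarith) (by linarith [min_le_left δ1 δ2])
  have e2 : T ^ (1 - δ2) ≤ T ^ (1 - min δ1 δ2) :=
    Real.rpow_le_rpow_of_exponent_le (by linarith) (by linarith [min_le_right δ1 δ2])
  rw [hc]
  push_cast
  calc _ ≤ C1 * (T ^ (1 - δ1) * Real.log T) + C2 * (T ^ (1 - δ2) * Real.log T) :=
        add_le_add a1 a2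
    _ ≤ C1 * (T ^ (1 - min δ1 δ2) * Real.log T) + C2 * (T ^ (1 - min δ1 δ2) * Real.log T) := by
        gcongr
    _ = _ := by ring

theorem den_block {F : ℂ → ℂ} (hF : GoodL F) {f g : ℕ → ℂ} {B : ℝ} {N0 : ℕ}
    (hD : Dat f g B N0)
    (hM : ∀ ρ : ℂ, F ρ = 0 → 1 / 2 < ρ.re → ρ.re < 1 → 1 ≤ ρ.im →
      HasMellin (fun y : ℝ => Sf f ⌊y⌋₊) (-ρ) 0)
    {b c0 : ℝ} (hc0 : 0 < c0)
    (hP : ∀ ρ : ℂ, 1 / 2 ≤ ρ.re → ρ.re ≤ b → c0 ≤ ‖P0 f g N0 ρ‖)
    {τ : ℝ} (hτ : 0 < τ) (hτ1 : τ ≤ 1) : Den F (1 / 2 + τ) b := by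
  obtain ⟨K, hK⟩ : ∃ K : ℕ, 4 + τ ≤ K * τ := by
    obtain ⟨K, hK⟩ := exists_nat_ge ((4 + τ) / τ)
    exact ⟨K, by rwa [div_le_iff₀ hτ] at hK⟩
  have hK1 : K ≠ 0 := by
    rintro rfl
    simp at hK
    linarith
  have hK0 : (0:ℝ) < K := by exact_mod_cast Nat.pos_of_ne_zero hK1
  obtain ⟨C, hC, hb⟩ := block hF hD hM hc0 hP hτ hτ1 hK
  set M : ℝ := 4 * 3 ^ K with hMd
  have hM1 : 4 ≤ M := by
    rw [hMd]
    have : (1:ℝ) ≤ 3 ^ K := one_le_pow₀ (by norm_num)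
    linarith
  set R : ℝ := ((4 + N0 : ℕ) : ℝ) ^ K with hR
  refine ⟨τ / (2 * K), by positivity, C * (M * 2), M + R + 10, by positivity, ?_,
    fun T hT Z hZ => ?_⟩
  · have : 0 ≤ R := by positivity
    linarith
  have hR0 : 0 ≤ R := by positivity
  have hTM : M ≤ T := by linarith
  have hTR : R ≤ T := by linarith
  have hTpos : 0 < T := by linarith
  have hT1 : 1 ≤ T := by linarith
  set y : ℝ := (4 * T) ^ (1 / K : ℝ) with hy
  have hy0 : 0 < y := by positivity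
  have hyK : y ^ K = 4 * T := by
    rw [hy, ← Real.rpow_natCast, ← Real.rpow_mul (by positivity)]
    rw [one_div, inv_mul_cancel₀ hK0.ne', Real.rpow_one]
  have hyR : ((4 + N0 : ℕ) : ℝ) ≤ y := by
    by_contra hc
    push Not at hc
    have h1 : y ^ K ≤ ((4 + N0 : ℕ) : ℝ) ^ K := pow_le_pow_left₀ hy0.le hc.le K
    rw [hyK] at h1
    linarith
  have hN00 : (0:ℝ) ≤ N0 := Nat.cast_nonneg _
  have hy1 : 4 ≤ y := by
    push_cast at hyR
    linarith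
  set X : ℕ := ⌈y⌉₊ + 1 with hX
  have hX1 : y ≤ X := by
    rw [hX]; push_cast
    exact (Nat.le_ceil y).trans (by linarith)
  have hX2 : (X : ℝ) ≤ 3 * y := by
    rw [hX]; push_cast
    have := (Nat.ceil_lt_add_one hy0.le).le
    linarith
  have hX3 : 4 + N0 ≤ X := by
    have : ((4 + N0 : ℕ) : ℝ) ≤ X := hyR.trans hX1
    exact_mod_cast this
  have hX0 : (0 : ℝ) < X := by linarith
  have h16l : 4 * T ≤ (X : ℝ) ^ K := by
    rw [← hyK]
    exact pow_le_pow_left₀ hy0.le hX1 K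
  have h16u : (X : ℝ) ^ K ≤ M * T := by
    calc (X : ℝ) ^ K ≤ (3 * y) ^ K := pow_le_pow_left₀ hX0.le hX2 K
      _ = 3 ^ K * y ^ K := by rw [mul_pow]
      _ = M * T := by rw [hyK, hMd]; ring
  have h := hb X Z (by omega) (by omega) fun ρ hρ => by
    obtain ⟨h1, h2, h3, h4, h5, h6⟩ := hZ ρ hρ
    exact ⟨⟨h1, h2.le, h4, h5⟩, h3, by linarith⟩
  have h1 : (X : ℝ) ^ (-(τ / 2)) ≤ T ^ (-(τ / (2 * K))) := by
    calc (X : ℝ) ^ (-(τ / 2)) ≤ y ^ (-(τ / 2)) :=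
          Real.rpow_le_rpow_of_nonpos hy0 hX1 (by linarith)
      _ = (4 * T) ^ (-(τ / (2 * K))) := by
          rw [hy, ← Real.rpow_mul (by positivity)]
          congr 1
          field_simp
      _ ≤ T ^ (-(τ / (2 * K))) := by
          apply Real.rpow_le_rpow_of_nonpos hTpos (by linarith)
          have : 0 < τ / (2 * K) := by positivity
          linarith
  have hXK1 : 1 ≤ (X:ℝ) ^ K := by linarith
  have h2 : Real.log ((X : ℝ) ^ K) ≤ 2 * Real.log T := by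
    have e1 : 2 * Real.log T = Real.log (T ^ 2) := by rw [Real.log_pow]; push_cast; ring
    rw [e1]
    apply Real.log_le_log (by positivity)
    nlinarith
  have hlogT : 0 ≤ Real.log T := Real.log_nonneg hT1
  have hlogX : 0 ≤ Real.log ((X : ℝ) ^ K) := Real.log_nonneg hXK1
  have h3 : T ^ (1 - τ / (2 * K)) = T * T ^ (-(τ / (2 * K))) := by
    rw [sub_eq_add_neg, Real.rpow_add hTpos, Real.rpow_one]
  calc (Z.card : ℝ) ≤ C * ((X:ℝ) ^ K * (X:ℝ) ^ (-(τ / 2))) * Real.log ((X:ℝ) ^ K) := h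
    _ ≤ C * ((M * T) * T ^ (-(τ / (2 * K)))) * (2 * Real.log T) := by gcongr
    _ = C * (M * 2) * ((T * T ^ (-(τ / (2 * K)))) * Real.log T) := by ring
    _ = _ := by rw [h3]

theorem bzr_of_den {F : ℂ → ℂ} (hF : GoodL F) {τ : ℝ} (hτ : 0 < τ)
    (hDen : Den F (1 / 2 + τ) 1) : BZr F τ := by
  obtain ⟨δ, hδ, C, T1, hC, hT1, hcard⟩ := hDen
  refine ⟨δ / 2, by positivity, ?_⟩
  have ev1 : ∀ᶠ T : ℝ in atTop, 3 * Real.log T ≤ T / 2 := by
    have h1 := Real.isLittleO_log_id_atTop.bound (show (0 : ℝ) < 1 / 6 by norm_num)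
    filter_upwards [h1, eventually_ge_atTop 1] with T h2 h3
    rw [Real.norm_of_nonneg (Real.log_nonneg h3), id, Real.norm_of_nonneg (by linarith)] at h2
    linarith
  have ev2 : ∀ᶠ T : ℝ in atTop, C * 12 * (Real.log T) ^ 2 ≤ T ^ (δ / 2) := by
    have h1 : (fun T : ℝ => (Real.log T) ^ 2) =o[atTop] fun T : ℝ => T ^ (δ / 2) :=
      (isLittleO_log_rpow_atTop (r := δ / 4) (by positivity)).pow
        (by norm_num : 0 < 2) |>.trans_eventuallyEq
        (by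
          filter_upwards [eventually_gt_atTop 0] with T hT
          rw [← Real.rpow_natCast, ← Real.rpow_mul hT.le]
          congr 1
          push_cast
          ring)
    have h3 := h1.bound (show (0 : ℝ) < 1 / (C * 12) by positivity)
    filter_upwards [h3, eventually_ge_atTop 1] with T hT hT1
    rw [Real.norm_of_nonneg (by positivity), Real.norm_of_nonneg (by positivity)] at hT
    calc C * 12 * (Real.log T) ^ 2 ≤ C * 12 * (1 / (C * 12) * T ^ (δ / 2)) := by gcongr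
      _ = T ^ (δ / 2) := by field_simp
  obtain ⟨T2, hT2⟩ := (ev1.and ev2).exists_forall_of_atTop
  refine ⟨max 10 (max T1 T2), fun T hT H hH0 hHT => ?_⟩
  have hT10 : 10 ≤ T := (le_max_left _ _).trans hT
  have hTT1 : T1 ≤ T := ((le_max_left _ _).trans (le_max_right _ _)).trans hT
  obtain ⟨e1, e2⟩ := hT2 T (((le_max_right _ _).trans (le_max_right _ _)).trans hT)
  have hTpos : 0 < T := by linarith
  set L := Real.log T with hL
  have hL0 : 0 < L := Real.log_pos (by linarith)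
  have hfin : (zset F 1 (4 * T)).Finite := zset_finite' hF 1 (4 * T) (by norm_num)
  classical
  set Z : Finset ℂ := hfin.toFinset.filter (fun s => 1 / 2 + τ < s.re ∧ 4 ≤ s.im) with hZ
  have hZc := hcard T hTT1 Z fun s hs => by
    rw [hZ, Finset.mem_filter, Set.Finite.mem_toFinset] at hs
    obtain ⟨⟨h1, h2, h3, h4, h5⟩, h6, h7⟩ := hs
    exact ⟨h5, h6, h2.le, h2, h7, h4⟩
  have hsub : {t : ℝ | t ∈ Set.Icc T (2 * T) ∧ ∃ s : ℂ, F s = 0 ∧ 1 / 2 + τ < s.re ∧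
      s.re < 1 ∧ (|s.im - t| ≤ 3 * L ∨ |s.im - (t + H)| ≤ 3 * L)} ⊆
      ⋃ s ∈ Z, (Set.Icc (s.im - 3 * L) (s.im + 3 * L) ∪
        Set.Icc (s.im - H - 3 * L) (s.im - H + 3 * L)) := by
    intro t ht
    obtain ⟨⟨ht1, ht2⟩, s, hs1, hs2, hs3, hs4⟩ := ht
    rw [Set.mem_iUnion₂]
    have hZm : 4 ≤ s.im → s.im ≤ 4 * T → s ∈ Z := by
      intro h1 h2
      rw [hZ, Finset.mem_filter, Set.Finite.mem_toFinset]
      exact ⟨⟨by linarith, hs3, by linarith, h2, hs1⟩, hs2, h1⟩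
    rcases hs4 with h | h
    · obtain ⟨h1, h2⟩ := abs_le.1 h
      refine ⟨s, hZm (by linarith) (by linarith), Or.inl ⟨by linarith, by linarith⟩⟩
    · obtain ⟨h1, h2⟩ := abs_le.1 h
      refine ⟨s, hZm (by linarith) (by linarith), Or.inr ⟨by linarith, by linarith⟩⟩
  have hone : ∀ s : ℂ, volume (Set.Icc (s.im - 3 * L) (s.im + 3 * L) ∪
        Set.Icc (s.im - H - 3 * L) (s.im - H + 3 * L)) ≤ ENNReal.ofReal (12 * L) := by
    intro s
    refine (measure_union_le _ _).trans ?_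
    rw [Real.volume_Icc, Real.volume_Icc, ← ENNReal.ofReal_add (by linarith) (by linarith)]
    apply ENNReal.ofReal_le_ofReal
    linarith
  calc _ ≤ volume (⋃ s ∈ Z, (Set.Icc (s.im - 3 * L) (s.im + 3 * L) ∪
        Set.Icc (s.im - H - 3 * L) (s.im - H + 3 * L))) := measure_mono hsub
    _ ≤ ∑ s ∈ Z, volume (Set.Icc (s.im - 3 * L) (s.im + 3 * L) ∪
        Set.Icc (s.im - H - 3 * L) (s.im - H + 3 * L)) := measure_biUnion_finset_le _ _
    _ ≤ ∑ s ∈ Z, ENNReal.ofReal (12 * L) := Finset.sum_le_sum fun s _ => hone s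
    _ = ENNReal.ofReal (Z.card * (12 * L)) := by
        rw [Finset.sum_const, nsmul_eq_mul, ← ENNReal.ofReal_natCast,
          ← ENNReal.ofReal_mul (Nat.cast_nonneg _)]
    _ ≤ ENNReal.ofReal (T ^ (1 - δ / 2)) := by
        apply ENNReal.ofReal_le_ofReal
        calc (Z.card : ℝ) * (12 * L) ≤ (C * (T ^ (1 - δ) * L)) * (12 * L) := by gcongr
          _ = (C * 12 * L ^ 2) * T ^ (1 - δ) := by ring
          _ ≤ T ^ (δ / 2) * T ^ (1 - δ) := by gcongr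
          _ = T ^ (1 - δ / 2) := by
              rw [← Real.rpow_add hTpos]
              congr 1
              ring

theorem den_zeta_high : Den riemannZeta (11 / 16) 1 := by
  obtain ⟨C, hC, T0, hT0, h⟩ := H370.AS.bad_card
  refine ⟨1 / 128, by norm_num, C, T0, hC, hT0, fun T hT Z hZ => ?_⟩
  have h1 := h T hT Z fun s hs => by
    obtain ⟨b1, b2, b3, b4, b5, b6⟩ := hZ s hs
    exact ⟨b1, b2, by linarith, b6⟩
  have e : (1 - 1 / 128 : ℝ) = 127 / 128 := by norm_num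
  rw [e]
  exact h1

end

end Pool.Agent.TH822.DZ
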