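import Pool.Agent.TH822.DZ.Ari
import Pool.Agent.H370R2.DirGood
set_option autoImplicit false

/-!
# The data for the Dirichlet L-functions and for the zeta function
-/

open MeasureTheory Filter Topology Set

namespace Pool.Agent.TH822.DZ

noncomputable section

open scoped ComplexConjugate
open Pool.Agent.H437R2

/-! ### Dirichlet characters -/

section dir

variable {q : ℕ} [NeZero q] (χ : DirichletCharacter ℂ q)

/-- the coefficients -/
def fD (n : ℕ) : ℂ := χ (n : ZMod q)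

/-- the inverse coefficients -/
def gD (n : ℕ) : ℂ := ((ArithmeticFunction.moebius n : ℤ) : ℂ) * χ (n : ZMod q)

lemma mu_norm (n : ℕ) : ‖((ArithmeticFunction.moebius n : ℤ) : ℂ)‖ ≤ 1 := by
  have := ArithmeticFunction.abs_moebius_le_one (n := n)
  rw [Complex.norm_intCast]
  exact_mod_cast this

lemma sum_mu {n : ℕ} (hn : 1 < n) :
    ∑ d ∈ n.divisors, ((ArithmeticFunction.moebius d : ℤ) : ℂ) = 0 := by
  have h := congrArg (fun f : ArithmeticFunction ℤ => f n)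
    ArithmeticFunction.moebius_mul_coe_zeta
  simp only [ArithmeticFunction.coe_mul_zeta_apply] at h
  rw [ArithmeticFunction.one_apply_ne (by omega)] at h
  exact_mod_cast h

lemma cv_D (n : ℕ) : cv (fD χ) (gD χ) n =
    χ (n : ZMod q) * ∑ d ∈ n.divisors, ((ArithmeticFunction.moebius d : ℤ) : ℂ) := by
  unfold cv
  rw [Finset.mul_sum]
  refine Finset.sum_congr rfl fun d hd => ?_
  have hd' := (Nat.mem_divisors.1 hd).1
  unfold fD gD
  have e : χ (n : ZMod q) = χ ((n / d : ℕ) : ZMod q) * χ (d : ZMod q) := by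
    rw [← map_mul, ← Nat.cast_mul, Nat.div_mul_cancel hd']
  rw [e]
  ring

lemma dat_D (hχ1 : χ ≠ 1) : Dat (fD χ) (gD χ) (q + 1) 1 where
  f1 n := DirichletCharacter.norm_le_one χ _
  g1 n := by
    unfold gD
    rw [norm_mul]
    exact mul_le_one₀ (mu_norm n) (norm_nonneg _) (DirichletCharacter.norm_le_one χ _)
  B1 := by
    have : (0:ℝ) ≤ q := Nat.cast_nonneg q
    linarith
  sum N := by
    have := H370.DL.norm_sum_Icc_le hχ1 N
    exact this
  conv n hn := by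
    rw [cv_D χ n, sum_mu hn, mul_zero]

lemma P0_D (s : ℂ) : P0 (fD χ) (gD χ) 1 s = 1 := by
  unfold P0
  have h1 : Finset.Ioc 0 1 = {1} := rfl
  rw [h1, Finset.sum_singleton, cv_D χ 1]
  simp

lemma mellin_D (hχ1 : χ ≠ 1) {s : ℂ} (hs : 0 < s.re)
    (h0 : DirichletCharacter.LFunction χ s = 0) :
    HasMellin (fun y : ℝ => Sf (fD χ) ⌊y⌋₊) (-s) 0 := by
  have hD := dat_D χ hχ1
  have hm : Measurable (fun y : ℝ => Sf (fD χ) ⌊y⌋₊) :=
    (measurable_from_nat (f := fun n : ℕ => Sf (fD χ) n)).comp Nat.measurable_floor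
  have hz : ∀ y : ℝ, y < 1 → Sf (fD χ) ⌊y⌋₊ = 0 := by
    intro y hy
    have : ⌊y⌋₊ = 0 := Nat.floor_eq_zero.2 hy
    rw [this]
    unfold Sf
    simp
  have hs0 : s ≠ 0 := by
    rintro rfl
    simp at hs
  constructor
  · refine mellinConvergent_of_isBigO_rpow (a := 0) (b := -s.re - 1) ?_ ?_ ?_ ?_ ?_
    · refine LocallyIntegrable.locallyIntegrableOn ?_ _
      refine LocallyIntegrable.mono (locallyIntegrable_const ((q:ℝ) + 1))
        hm.aestronglyMeasurable ?_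
      refine Eventually.of_forall fun t => ?_
      rw [Real.norm_of_nonneg (by positivity)]
      exact hD.sum _
    · refine Asymptotics.IsBigO.of_bound (q + 1) (Eventually.of_forall fun t => ?_)
      simp only [neg_zero, Real.rpow_zero, norm_one, mul_one]
      exact hD.sum _
    · simpa using hs
    · refine Asymptotics.IsBigO.of_bound 1 ?_
      have h2 : ∀ᶠ t : ℝ in 𝓝[>] 0, t < 1 := nhdsWithin_le_nhds (Iio_mem_nhds one_pos)
      filter_upwards [h2] with t ht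
      rw [hz t ht, norm_zero]
      positivity
    · simp
  · have h1 := H370.DL.L_integral hχ1 hs
    rw [h0] at h1
    have h2 := (mul_eq_zero.1 h1.symm).resolve_left hs0
    unfold mellin
    have h3 : ∀ y : ℝ, y ∈ Ioi (0:ℝ) → (y : ℂ) ^ (-s - 1) • Sf (fD χ) ⌊y⌋₊ =
        (Ici (1:ℝ)).indicator (fun y : ℝ => (∑ k ∈ Finset.Icc 1 ⌊y⌋₊, χ (k : ZMod q)) *
          (y : ℂ) ^ (-s - 1)) y := by
      intro y _
      by_cases hy : y ∈ Ici (1:ℝ)
      · rw [indicator_of_mem hy, smul_eq_mul, mul_comm]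
        rfl
      · rw [indicator_of_notMem hy, hz y (not_le.1 hy), smul_zero]
    have h4 : Ioi (0:ℝ) ∩ Ici 1 = Ici 1 :=
      inter_eq_self_of_subset_right fun x (hx : (1:ℝ) ≤ x) => lt_of_lt_of_le one_pos hx
    rw [setIntegral_congr_fun measurableSet_Ioi h3, setIntegral_indicator measurableSet_Ici,
      h4, integral_Ici_eq_integral_Ioi, h2]

end dir

/-! ### The zeta function -/

/-- the alternating coefficients -/
def fZ (n : ℕ) : ℂ := (-1) ^ (n + 1)

/-- the Moebius function -/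
def gZ (n : ℕ) : ℂ := ((ArithmeticFunction.moebius n : ℤ) : ℂ)

lemma Sf_Z (N : ℕ) : Sf fZ N = (N : ℂ) - 2 * ((N / 2 : ℕ) : ℂ) := by
  induction N with
  | zero => simp [Sf]
  | succ n ih =>
    have h1 : Sf fZ (n + 1) = Sf fZ n + fZ (n + 1) := by
      unfold Sf
      rw [Finset.sum_Ioc_succ_top (Nat.zero_le n)]
    rw [h1, ih]
    unfold fZ
    rcases Nat.even_or_odd' n with ⟨k, rfl | rfl⟩
    · have e1 : (2 * k) / 2 = k := by omega
      have e2 : (2 * k + 1) / 2 = k := by omega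
      rw [e1, e2]
      have e3 : ((-1 : ℂ)) ^ (2 * k + 1 + 1) = 1 := by
        rw [show 2 * k + 1 + 1 = 2 * (k + 1) by ring, pow_mul]
        simp
      rw [e3]
      push_cast
      ring
    · have e1 : (2 * k + 1) / 2 = k := by omega
      have e2 : (2 * k + 1 + 1) / 2 = k + 1 := by omega
      rw [e1, e2]
      have e3 : ((-1 : ℂ)) ^ (2 * k + 1 + 1 + 1) = -1 := by
        rw [show 2 * k + 1 + 1 + 1 = 2 * (k + 1) + 1 by ring, pow_succ, pow_mul]
        simp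
      rw [e3]
      push_cast
      ring

lemma Sf_Z_norm (N : ℕ) : ‖Sf fZ N‖ ≤ 1 := by
  rw [Sf_Z]
  rcases Nat.even_or_odd' N with ⟨k, rfl | rfl⟩
  · have e1 : (2 * k) / 2 = k := by omega
    rw [e1]
    push_cast
    simp
  · have e1 : (2 * k + 1) / 2 = k := by omega
    rw [e1]
    have : (((2 * k + 1 : ℕ) : ℂ) - 2 * ((k : ℕ) : ℂ)) = 1 := by
      push_cast
      ring
    rw [this, norm_one]

lemma cv_Z (n : ℕ) (hn : n ≠ 0) : cv fZ gZ n =
    ∑ d ∈ n.divisors, ((ArithmeticFunction.moebius d : ℤ) : ℂ) -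
      2 * (if 2 ∣ n then ∑ d ∈ (n / 2).divisors, ((ArithmeticFunction.moebius d : ℤ) : ℂ)
        else 0) := by
  have hf : ∀ m : ℕ, fZ m = 1 - 2 * (if 2 ∣ m then 1 else 0) := by
    intro m
    unfold fZ
    rcases Nat.even_or_odd' m with ⟨k, rfl | rfl⟩
    · rw [if_pos (Dvd.intro k rfl), pow_succ, pow_mul]
      norm_num
    · rw [if_neg (by omega), show 2 * k + 1 + 1 = 2 * (k + 1) by ring, pow_mul]
      norm_num
  unfold cv gZ
  have h1 : ∀ d ∈ n.divisors, fZ (n / d) * ((ArithmeticFunction.moebius d : ℤ) : ℂ) =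
      ((ArithmeticFunction.moebius d : ℤ) : ℂ) -
        2 * (if 2 ∣ n / d then ((ArithmeticFunction.moebius d : ℤ) : ℂ) else 0) := by
    intro d _
    rw [hf]
    split_ifs <;> ring
  rw [Finset.sum_congr rfl h1, Finset.sum_sub_distrib, ← Finset.mul_sum]
  congr 2
  by_cases h2 : 2 ∣ n
  · rw [if_pos h2, ← Finset.sum_filter]
    refine Finset.sum_congr ?_ fun _ _ => rfl
    obtain ⟨m, rfl⟩ := h2
    have hm : m ≠ 0 := by rintro rfl; simp at hn
    have e0 : 2 * m / 2 = m := by omega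
    rw [e0]
    ext d
    rw [Finset.mem_filter, Nat.mem_divisors, Nat.mem_divisors]
    constructor
    · rintro ⟨⟨h3, _⟩, h4⟩
      refine ⟨?_, hm⟩
      have hd0 : 0 < d := Nat.pos_of_dvd_of_pos h3 (by omega)
      obtain ⟨e, he⟩ := h4
      have h5 : 2 * m = d * (2 * e) := by
        rw [← he]
        exact (Nat.mul_div_cancel' h3).symm
      exact ⟨e, by nlinarith⟩
    · rintro ⟨⟨e, rfl⟩, _⟩
      have hd0 : 0 < d := by
        rcases Nat.eq_zero_or_pos d with rfl | h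
        · simp at hm
        · exact h
      refine ⟨⟨Dvd.intro (2 * e) (by ring), by omega⟩, ?_⟩
      have : 2 * (d * e) / d = 2 * e := by
        rw [show 2 * (d * e) = d * (2 * e) by ring, Nat.mul_div_cancel_left _ hd0]
      rw [this]
      exact Dvd.intro e rfl
  · rw [if_neg h2]
    refine Finset.sum_eq_zero fun d hd => ?_
    rw [if_neg]
    intro h3
    apply h2
    have h4 := (Nat.mem_divisors.1 hd).1
    exact h3.trans (Nat.div_dvd_of_dvd h4)

lemma dat_Z : Dat fZ gZ 1 2 where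
  f1 n := by
    unfold fZ
    rw [norm_pow]
    simp
  g1 n := mu_norm n
  B1 := le_rfl
  sum N := Sf_Z_norm N
  conv n hn := by
    rw [cv_Z n (by omega), sum_mu (by omega : 1 < n)]
    split_ifs with h
    · rw [sum_mu (by omega : 1 < n / 2)]
      ring
    · ring

lemma P0_Z (s : ℂ) : P0 fZ gZ 2 s = 1 - 2 * ((((2 : ℝ))⁻¹ : ℝ) : ℂ) ^ s := by
  unfold P0
  have h1 : Finset.Ioc 0 2 = {1, 2} := rfl
  rw [h1, Finset.sum_pair (by norm_num), cv_Z 1 one_ne_zero, cv_Z 2 two_ne_zero,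
    sum_mu (by norm_num : 1 < 2)]
  norm_num
  ring

lemma P0_Z_low (s : ℂ) (hs : s.re ≤ 11 / 16) : 1 / 5 ≤ ‖P0 fZ gZ 2 s‖ := by
  rw [P0_Z]
  have h1 : ‖2 * ((((2 : ℝ))⁻¹ : ℝ) : ℂ) ^ s‖ = 2 * (2:ℝ)⁻¹ ^ s.re := by
    rw [norm_mul, Complex.norm_cpow_eq_rpow_re_of_pos (by norm_num)]
    norm_num
  have h2 : 6 / 5 ≤ 2 * (2:ℝ)⁻¹ ^ s.re := by
    have h3 : (2:ℝ)⁻¹ ^ (11 / 16 : ℝ) ≤ (2:ℝ)⁻¹ ^ s.re :=
      Real.rpow_le_rpow_of_exponent_ge (by norm_num) (by norm_num) hs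
    have h4 : (3 / 5 : ℝ) ≤ (2:ℝ)⁻¹ ^ (11 / 16 : ℝ) := by
      have h5 : ((3 / 5 : ℝ)) ^ (16 : ℕ) ≤ ((2:ℝ)⁻¹ ^ (11 / 16 : ℝ)) ^ (16 : ℕ) := by
        rw [← Real.rpow_natCast ((2:ℝ)⁻¹ ^ (11 / 16 : ℝ)), ← Real.rpow_mul (by norm_num)]
        norm_num
      exact le_of_pow_le_pow_left₀ (by norm_num) (by positivity) h5
    linarith
  have h3 := norm_sub_norm_le (2 * ((((2 : ℝ))⁻¹ : ℝ) : ℂ) ^ s) 1
  rw [h1, norm_one, norm_sub_rev] at h3
  linarith

lemma mellin_Z {s : ℂ} (hs : 0 < s.re) (hs1 : s ≠ 1) (h0 : riemannZeta s = 0) :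
    HasMellin (fun y : ℝ => Sf fZ ⌊y⌋₊) (-s) 0 := by
  have hz1 : riemannZeta₁ s = 0 := by rw [z1_of_ne hs1, h0, mul_zero]
  have h1 := hasMellin_Gc_zero hz1 hs (Real.log_nonneg (by norm_num : (1:ℝ) ≤ 2))
  have h2 := hasMellin_smul 2 (hasMellin_scale (by norm_num : (0:ℝ) < 2⁻¹) h1)
  rw [mul_zero, mul_zero] at h2
  refine hasMellin_congr h2 fun t ht => ?_
  rw [Sf_Z]
  unfold Gc flr
  rw [Real.exp_log (by norm_num), Real.exp_neg, Real.exp_log (by norm_num)]
  have e1 : (2:ℝ) * (2⁻¹ * t) = t := by ring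
  have e2 : ⌊(2:ℝ)⁻¹ * t⌋₊ = ⌊t⌋₊ / 2 := by
    rw [inv_mul_eq_div]
    have := Nat.floor_div_natCast t 2
    exact_mod_cast this
  rw [e1, e2]
  push_cast
  ring

end

end Pool.Agent.TH822.DZ
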