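import Pool.Agent.TH822.DZ.Bes
set_option autoImplicit false

/-!
# Coefficients with bounded partial sums and their truncated inverses
-/

open MeasureTheory Filter Topology Set

namespace Pool.Agent.TH822.DZ

noncomputable section

open scoped ComplexConjugate
open Pool.Agent.H437R2

/-- partial sums -/
def Sf (f : ℕ → ℂ) (N : ℕ) : ℂ := ∑ n ∈ Finset.Ioc 0 N, f n

/-- the convolution -/
def cv (f g : ℕ → ℂ) (n : ℕ) : ℂ := ∑ d ∈ n.divisors, f (n / d) * g d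

/-- the truncated convolution -/
def aX (f g : ℕ → ℂ) (X n : ℕ) : ℂ :=
  ∑ d ∈ (Finset.Ioc 0 X).filter (fun d => d ∣ n), f (n / d) * g d

/-- `f` has bounded partial sums, `g` is an inverse up to `N0` terms -/
structure Dat (f g : ℕ → ℂ) (B : ℝ) (N0 : ℕ) : Prop where
  f1 : ∀ n, ‖f n‖ ≤ 1
  g1 : ∀ n, ‖g n‖ ≤ 1
  B1 : 1 ≤ B
  sum : ∀ N : ℕ, ‖Sf f N‖ ≤ B
  conv : ∀ n, N0 < n → cv f g n = 0

/-- the finite Dirichlet polynomial of the product -/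
def P0 (f g : ℕ → ℂ) (N0 : ℕ) (s : ℂ) : ℂ :=
  ∑ n ∈ Finset.Ioc 0 N0, cv f g n * (((n : ℝ)⁻¹ : ℝ) : ℂ) ^ s

lemma aX_full (f g : ℕ → ℂ) {X n : ℕ} (hn : n ≠ 0) (hnX : n ≤ X) : aX f g X n = cv f g n := by
  unfold aX cv
  congr 1
  ext d
  rw [Finset.mem_filter, Nat.mem_divisors, Finset.mem_Ioc]
  constructor
  · rintro ⟨_, h⟩
    exact ⟨h, hn⟩
  · rintro ⟨h, _⟩
    exact ⟨⟨Nat.pos_of_dvd_of_pos h (Nat.pos_of_ne_zero hn),
      (Nat.le_of_dvd (Nat.pos_of_ne_zero hn) h).trans hnX⟩, h⟩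

lemma sum_dvd (f : ℕ → ℂ) (N d : ℕ) (hd : 0 < d) :
    ∑ n ∈ (Finset.Ioc 0 N).filter (fun n => d ∣ n), f (n / d) = Sf f (N / d) := by
  unfold Sf
  refine Finset.sum_nbij' (fun n => n / d) (fun m => d * m) ?_ ?_ ?_ ?_ ?_
  · intro n hn
    rw [Finset.mem_filter, Finset.mem_Ioc] at hn
    rw [Finset.mem_Ioc]
    exact ⟨Nat.div_pos (Nat.le_of_dvd hn.1.1 hn.2) hd, Nat.div_le_div_right hn.1.2⟩
  · intro m hm
    rw [Finset.mem_Ioc] at hm
    rw [Finset.mem_filter, Finset.mem_Ioc]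
    refine ⟨⟨Nat.mul_pos hd hm.1, ?_⟩, dvd_mul_right d m⟩
    rw [Nat.le_div_iff_mul_le hd] at hm
    rw [mul_comm]
    exact hm.2
  · intro n hn
    rw [Finset.mem_filter] at hn
    exact Nat.mul_div_cancel' hn.2
  · intro m _
    exact Nat.mul_div_cancel_left m hd
  · intro n _
    rfl

lemma AA_eq (f g : ℕ → ℂ) (X N : ℕ) : ∑ n ∈ Finset.Ioc 0 N, aX f g X n =
    ∑ d ∈ Finset.Ioc 0 X, g d * Sf f (N / d) := by
  unfold aX
  simp_rw [Finset.sum_filter]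
  rw [Finset.sum_comm]
  refine Finset.sum_congr rfl fun d hd => ?_
  rw [Finset.mem_Ioc] at hd
  rw [← sum_dvd f N d hd.1, Finset.mul_sum, Finset.sum_filter]
  refine Finset.sum_congr rfl fun n _ => ?_
  split_ifs
  · ring
  · rfl

variable {f g : ℕ → ℂ} {B : ℝ} {N0 : ℕ}

lemma aX_le (hD : Dat f g B N0) (X n : ℕ) (hn : n ≠ 0) :
    ‖aX f g X n‖ ≤ (n.divisors.card : ℝ) := by
  unfold aX
  refine (norm_sum_le _ _).trans ?_
  have h1 : ∀ d ∈ (Finset.Ioc 0 X).filter (fun d => d ∣ n), ‖f (n / d) * g d‖ ≤ 1 := by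
    intro d _
    rw [norm_mul]
    exact mul_le_one₀ (hD.f1 _) (norm_nonneg _) (hD.g1 _)
  refine (Finset.sum_le_sum h1).trans ?_
  rw [Finset.sum_const, nsmul_eq_mul, mul_one]
  have h2 : (Finset.Ioc 0 X).filter (fun d => d ∣ n) ⊆ n.divisors := by
    intro d hd
    rw [Finset.mem_filter] at hd
    exact Nat.mem_divisors.2 ⟨hd.2, hn⟩
  exact_mod_cast Finset.card_le_card h2

/-- the sum over the large integers -/
def A1 (f g : ℕ → ℂ) (X N : ℕ) : ℂ := ∑ n ∈ Finset.Ioc X N, aX f g X n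

lemma A1_zero {X N : ℕ} (hN : N ≤ X) : A1 f g X N = 0 := by
  unfold A1
  rw [Finset.Ioc_eq_empty_of_le hN, Finset.sum_empty]

lemma A1_eq (hD : Dat f g B N0) {X : ℕ} (hX : N0 ≤ X) (N : ℕ) : A1 f g X N =
    ∑ d ∈ Finset.Ioc 0 X, g d * Sf f (N / d) -
      ∑ n ∈ Finset.Ioc 0 N0, (if n ≤ N then cv f g n else 0) := by
  rw [← AA_eq]
  unfold A1
  have h1 : ∑ n ∈ Finset.Ioc 0 N0, (if n ≤ N then cv f g n else 0) =
      ∑ n ∈ Finset.Ioc 0 (min X N), aX f g X n := by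
    rw [← Finset.sum_filter]
    have h2 : ∑ n ∈ Finset.Ioc 0 (min X N), aX f g X n =
        ∑ n ∈ Finset.Ioc 0 (min X N), cv f g n := by
      refine Finset.sum_congr rfl fun n hn => ?_
      rw [Finset.mem_Ioc] at hn
      exact aX_full f g (by omega) (hn.2.trans (min_le_left _ _))
    rw [h2]
    refine Finset.sum_subset_zero_on_sdiff ?_ ?_ fun _ _ => rfl
    · intro n hn
      rw [Finset.mem_filter, Finset.mem_Ioc] at hn
      rw [Finset.mem_Ioc]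
      exact ⟨hn.1.1, le_min (hn.1.2.trans hX) hn.2⟩
    · intro n hn
      rw [Finset.mem_sdiff, Finset.mem_filter, Finset.mem_Ioc, Finset.mem_Ioc] at hn
      have h3 : N0 < n := by
        by_contra hc
        push Not at hc
        exact hn.2 ⟨⟨hn.1.1, hc⟩, hn.1.2.trans (min_le_right _ _)⟩
      exact hD.conv n h3
  rw [h1]
  rcases le_total N X with h | h
  · rw [min_eq_right h, sub_self, Finset.Ioc_eq_empty_of_le h, Finset.sum_empty]
  · rw [min_eq_left h, eq_sub_iff_add_eq, add_comm]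
    exact Finset.sum_Ioc_consecutive (fun n => aX f g X n) (Nat.zero_le X) h

/-- bound for the convolution -/
def CC (f g : ℕ → ℂ) (N0 : ℕ) : ℝ := ∑ n ∈ Finset.Ioc 0 N0, ‖cv f g n‖

lemma CC_nonneg : 0 ≤ CC f g N0 := Finset.sum_nonneg fun _ _ => norm_nonneg _

lemma A1_norm_le (hD : Dat f g B N0) {X : ℕ} (hX : N0 ≤ X) (N : ℕ) :
    ‖A1 f g X N‖ ≤ B * X + CC f g N0 := by
  rw [A1_eq hD hX]
  refine (norm_sub_le _ _).trans (add_le_add ?_ ?_)
  · refine (norm_sum_le _ _).trans ?_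
    have h2 : ∀ d ∈ Finset.Ioc 0 X, ‖g d * Sf f (N / d)‖ ≤ B := by
      intro d _
      rw [norm_mul]
      have := mul_le_mul (hD.g1 d) (hD.sum (N / d)) (norm_nonneg _) zero_le_one
      rwa [one_mul] at this
    refine (Finset.sum_le_sum h2).trans ?_
    rw [Finset.sum_const, Nat.card_Ioc, nsmul_eq_mul]
    simp [mul_comm]
  · refine (norm_sum_le _ _).trans (Finset.sum_le_sum fun n _ => ?_)
    split_ifs
    · exact le_rfl
    · rw [norm_zero]; exact norm_nonneg _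

/-- the test function -/
def cR (f g : ℕ → ℂ) (X : ℕ) (h y : ℝ) : ℂ := A1 f g X ⌊Real.exp h * y⌋₊ - A1 f g X ⌊y⌋₊

lemma hasMellin_A1 (hD : Dat f g B N0) {X : ℕ} (hX : N0 ≤ X) {ρ : ℂ} (h0 : 0 < ρ.re)
    (hz : HasMellin (fun y : ℝ => Sf f ⌊y⌋₊) (-ρ) 0) :
    HasMellin (fun y : ℝ => A1 f g X ⌊y⌋₊) (-ρ) (-(P0 f g N0 ρ / ρ)) := by
  have h2 : HasMellin (fun y : ℝ => ∑ d ∈ Finset.Ioc 0 X, g d * Sf f ⌊((d:ℝ))⁻¹ * y⌋₊) (-ρ)
      (∑ d ∈ Finset.Ioc 0 X, 0) := by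
    refine hasMellin_sum _ _ _ _ fun d hd => ?_
    rw [Finset.mem_Ioc] at hd
    have hd0 : (0:ℝ) < (d:ℝ)⁻¹ := by
      have : (0:ℝ) < d := by exact_mod_cast hd.1
      positivity
    have := hasMellin_smul (g d) (hasMellin_scale hd0 hz)
    rwa [mul_zero, mul_zero] at this
  have h3 : HasMellin (fun y : ℝ => ∑ n ∈ Finset.Ioc 0 N0, cv f g n * ind1 (((n:ℝ))⁻¹ * y)) (-ρ)
      (∑ n ∈ Finset.Ioc 0 N0, cv f g n * ((((n : ℝ)⁻¹ : ℝ) : ℂ) ^ ρ * (1 / ρ))) := by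
    refine hasMellin_sum _ _ _ _ fun n hn => ?_
    rw [Finset.mem_Ioc] at hn
    have hn0 : (0:ℝ) < (n:ℝ)⁻¹ := by
      have : (0:ℝ) < n := by exact_mod_cast hn.1
      positivity
    exact hasMellin_smul (cv f g n) (hasMellin_scale hn0 (hasMellin_ind1 h0))
  have h4 := hasMellin_sub' h2 h3
  have e : ∑ d ∈ Finset.Ioc 0 X, (0:ℂ) -
      ∑ n ∈ Finset.Ioc 0 N0, cv f g n * ((((n : ℝ)⁻¹ : ℝ) : ℂ) ^ ρ * (1 / ρ)) =
      -(P0 f g N0 ρ / ρ) := by
    rw [Finset.sum_const_zero, zero_sub, P0, Finset.sum_div]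
    congr 1
    refine Finset.sum_congr rfl fun n _ => ?_
    ring
  rw [e] at h4
  refine hasMellin_congr h4 fun t ht => ?_
  rw [A1_eq hD hX]
  congr 1
  · refine Finset.sum_congr rfl fun d _ => ?_
    rw [← Nat.floor_div_natCast, div_eq_inv_mul]
  · refine Finset.sum_congr rfl fun n hn => ?_
    rw [Finset.mem_Ioc] at hn
    have hn0 : (0:ℝ) < n := by exact_mod_cast hn.1
    unfold ind1
    by_cases h : n ≤ ⌊t⌋₊
    · have h5 : (n:ℝ) ≤ t := (Nat.le_floor_iff ht.le).1 h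
      rw [if_pos h, indicator_of_mem, mul_one]
      rw [mem_Ici, inv_mul_eq_div, le_div_iff₀ hn0, one_mul]
      exact h5
    · have h5 : t < n := by
        by_contra hc
        push Not at hc
        exact h ((Nat.le_floor_iff ht.le).2 hc)
      rw [if_neg h, indicator_of_notMem, mul_zero]
      rw [mem_Ici, inv_mul_eq_div, le_div_iff₀ hn0, one_mul, not_le]
      exact h5

lemma hasMellin_cR (hD : Dat f g B N0) {X : ℕ} (hX : N0 ≤ X) {ρ : ℂ} (h0 : 0 < ρ.re)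
    (hz : HasMellin (fun y : ℝ => Sf f ⌊y⌋₊) (-ρ) 0) (h : ℝ) :
    HasMellin (cR f g X h) (-ρ) (-((Complex.exp (h * ρ) - 1) / ρ * P0 f g N0 ρ)) := by
  have h1 := hasMellin_A1 hD hX h0 hz
  have h2 := hasMellin_scale (Real.exp_pos h) h1
  have h3 := hasMellin_sub' h2 h1
  rw [exp_cpow] at h3
  have e : Complex.exp (h * ρ) * -(P0 f g N0 ρ / ρ) - -(P0 f g N0 ρ / ρ) =
      -((Complex.exp (h * ρ) - 1) / ρ * P0 f g N0 ρ) := by ring
  rw [e] at h3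
  exact h3

lemma cR_zero {X : ℕ} (hX : 2 ≤ X) {h y : ℝ} (hh : 0 ≤ h) (hh1 : h ≤ 1 / 4) (hy : y ≤ 1) :
    cR f g X h y = 0 := by
  have he : Real.exp h ≤ 2 := by
    have h1 := Real.exp_bound_div_one_sub_of_interval hh (by linarith : h < 1)
    have h2 : 1 / (1 - h) ≤ 2 := by
      rw [div_le_iff₀ (by linarith)]
      linarith
    linarith
  have h0 := Real.exp_pos h
  unfold cR
  rw [A1_zero, A1_zero]
  · simp
  · refine (Nat.floor_le_floor hy).trans ?_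
    simp
    omega
  · have h1 : Real.exp h * y ≤ 2 := by nlinarith
    refine (Nat.floor_le_floor h1).trans ?_
    simp
    omega

/-- the integral of `cR` over `(1,∞)` against `y^(-ρ-1)` -/
lemma cR_integral (hD : Dat f g B N0) {X : ℕ} (hX : N0 ≤ X) (hX2 : 2 ≤ X) {ρ : ℂ} (h0 : 0 < ρ.re)
    (hz : HasMellin (fun y : ℝ => Sf f ⌊y⌋₊) (-ρ) 0) {h : ℝ} (hh : 0 ≤ h) (hh1 : h ≤ 1 / 4) :
    IntegrableOn (fun y : ℝ => (y : ℂ) ^ (-ρ - 1) * cR f g X h y) (Ioi 1) ∧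
    ∫ y in Ioi (1:ℝ), (y : ℂ) ^ (-ρ - 1) * cR f g X h y =
      -((Complex.exp (h * ρ) - 1) / ρ * P0 f g N0 ρ) := by
  obtain ⟨h1, h2⟩ := hasMellin_cR hD hX h0 hz h
  refine ⟨IntegrableOn.mono_set h1 (Ioi_subset_Ioi zero_le_one), ?_⟩
  rw [← h2]
  unfold mellin
  have hz : ∀ y : ℝ, (y : ℂ) ^ (-ρ - 1) • cR f g X h y =
      (Ioi (1:ℝ)).indicator (fun y : ℝ => (y : ℂ) ^ (-ρ - 1) * cR f g X h y) y := by
    intro y
    by_cases hy : y ∈ Ioi (1:ℝ)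
    · rw [indicator_of_mem hy]; rfl
    · rw [indicator_of_notMem hy, cR_zero hX2 hh hh1 (not_lt.1 hy)]
      simp
  simp_rw [hz]
  rw [setIntegral_indicator measurableSet_Ioi,
    inter_eq_self_of_subset_right (Ioi_subset_Ioi zero_le_one)]

end

end Pool.Agent.TH822.DZ
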