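import Pool.Agent.H437R2.A3d
set_option autoImplicit false

/-!
# A Bessel inequality for powers with exponents in a half plane

After `Pool.Agent.H437R2.A3d`, for complex valued functions and arbitrary weights.
-/

open MeasureTheory Filter Topology Set

namespace Pool.Agent.TH822.DZ

noncomputable section

open scoped ComplexConjugate
open Pool.Agent.H437R2

theorem bessel {τ : ℝ} (hτ : 0 < τ) (Z : Finset ℂ) (hZ1 : ∀ ρ ∈ Z, 1 / 2 + τ ≤ ρ.re)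
    (hZ2 : ∀ ρ ∈ Z, ρ.re < 1) (c : ℝ → ℂ)
    (hci : IntegrableOn (fun y : ℝ => ‖c y‖ ^ 2 * y ^ (-(2 + τ))) (Ioi 1)) (z : ℂ → ℂ)
    (hz : ∀ ρ ∈ Z, ∫ y in Ioi (1:ℝ), (y : ℂ) ^ (-ρ - 1) * c y = z ρ)
    (hzi : ∀ ρ ∈ Z, IntegrableOn (fun y : ℝ => (y : ℂ) ^ (-ρ - 1) * c y) (Ioi 1))
    (B : ℝ) (hB : 0 < B) (hB' : ∀ ρ ∈ Z, ∑ ρ' ∈ Z, 4 / ‖ρ + conj ρ' - (1 + τ : ℝ)‖ ^ 2 ≤ B) :
    ∑ ρ ∈ Z, ‖z ρ‖ ^ 2 ≤ B * ∫ y in Ioi (1:ℝ), ‖c y‖ ^ 2 * y ^ (-(2 + τ)) := by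
  set S := ∑ ρ ∈ Z, ‖z ρ‖ ^ 2 with hS
  set Q := ∫ y in Ioi (1:ℝ), ‖c y‖ ^ 2 * y ^ (-(2 + τ)) with hQ
  set P : ℝ → ℂ := fun y => ∑ ρ ∈ Z, conj (z ρ) * (y : ℂ) ^ (-ρ - 1) with hP
  have hw : ∀ ρ ∈ Z, ∀ ρ' ∈ Z, 0 < (ρ + conj ρ' - (1 + τ : ℝ)).re ∧
      (ρ + conj ρ' - (1 + τ : ℝ)).re ≤ 1 := by
    intro ρ hρ ρ' hρ'
    have e : (ρ + conj ρ' - (1 + τ : ℝ)).re = ρ.re + ρ'.re - (1 + τ) := by
      simp
    rw [e]
    constructor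
    · linarith [hZ1 ρ hρ, hZ1 ρ' hρ']
    · linarith [hZ2 ρ hρ, hZ2 ρ' hρ']
  -- the weighted square of P
  have hsq : ∀ y ∈ Ioi (1/2 : ℝ), (((2 - 1 / y) * (‖P y‖ ^ 2 * y ^ (2 + τ)) : ℝ) : ℂ) =
      ∑ ρ ∈ Z, ∑ ρ' ∈ Z, conj (z ρ) * z ρ' *
        (2 * (y : ℂ) ^ (-(ρ + conj ρ' - (1 + τ : ℝ)) - 1) -
          (y : ℂ) ^ (-(ρ + conj ρ' - (1 + τ : ℝ)) - 2)) := by
    intro y hy
    have hy2 : (1/2:ℝ) < y := hy
    have hy0 : 0 < y := by linarith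
    have hyc : (y : ℂ) ≠ 0 := by exact_mod_cast hy0.ne'
    have h1 : ((‖P y‖ ^ 2 : ℝ) : ℂ) = ∑ ρ ∈ Z, ∑ ρ' ∈ Z, conj (z ρ) * z ρ' *
        ((y : ℂ) ^ (-ρ - 1) * (y : ℂ) ^ (-conj ρ' - 1)) := by
      rw [← Complex.normSq_eq_norm_sq, ← Complex.mul_conj, hP]
      simp only [map_sum, map_mul, Complex.conj_conj]
      rw [Finset.sum_mul_sum]
      refine Finset.sum_congr rfl fun ρ _ => Finset.sum_congr rfl fun ρ' _ => ?_
      rw [conj_cpow_real hy0]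
      simp only [map_sub, map_neg, map_one]
      ring
    rw [Complex.ofReal_mul, Complex.ofReal_mul, h1]
    rw [Finset.sum_mul, Finset.mul_sum]
    refine Finset.sum_congr rfl fun ρ _ => ?_
    rw [Finset.sum_mul, Finset.mul_sum]
    refine Finset.sum_congr rfl fun ρ' _ => ?_
    rw [Complex.ofReal_cpow hy0.le]
    have e1 : (y : ℂ) ^ (-ρ - 1) * (y : ℂ) ^ (-conj ρ' - 1) * (y : ℂ) ^ (((2 + τ : ℝ)) : ℂ) =
        (y : ℂ) ^ (-(ρ + conj ρ' - (1 + τ : ℝ)) - 1) := by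
      rw [← Complex.cpow_add _ _ hyc, ← Complex.cpow_add _ _ hyc]
      congr 1
      push_cast
      ring
    have e2 : (y : ℂ) ^ (-(ρ + conj ρ' - (1 + τ : ℝ)) - 2) =
        (y : ℂ) ^ (-(ρ + conj ρ' - (1 + τ : ℝ)) - 1) / y := by
      have : -(ρ + conj ρ' - (1 + τ : ℝ)) - 2 = (-(ρ + conj ρ' - (1 + τ : ℝ)) - 1) - 1 := by ring
      rw [this, Complex.cpow_sub _ _ hyc, Complex.cpow_one]
    rw [e2, ← e1]
    push_cast
    field_simp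
  have hKi : ∀ ρ ∈ Z, ∀ ρ' ∈ Z, IntegrableOn (fun y : ℝ => conj (z ρ) * z ρ' *
        (2 * (y : ℂ) ^ (-(ρ + conj ρ' - (1 + τ : ℝ)) - 1) -
          (y : ℂ) ^ (-(ρ + conj ρ' - (1 + τ : ℝ)) - 2))) (Ioi (1/2)) :=
    fun ρ hρ ρ' hρ' => (kernel_int (hw ρ hρ ρ' hρ').1).1.const_mul _
  have hKi2 : ∀ ρ ∈ Z, IntegrableOn (fun y : ℝ => ∑ ρ' ∈ Z, conj (z ρ) * z ρ' *
        (2 * (y : ℂ) ^ (-(ρ + conj ρ' - (1 + τ : ℝ)) - 1) -
          (y : ℂ) ^ (-(ρ + conj ρ' - (1 + τ : ℝ)) - 2))) (Ioi (1/2)) :=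
    fun ρ hρ => integrable_finsetSum _ (fun ρ' hρ' => hKi ρ hρ ρ' hρ')
  have hKi3 : IntegrableOn (fun y : ℝ => ∑ ρ ∈ Z, ∑ ρ' ∈ Z, conj (z ρ) * z ρ' *
        (2 * (y : ℂ) ^ (-(ρ + conj ρ' - (1 + τ : ℝ)) - 1) -
          (y : ℂ) ^ (-(ρ + conj ρ' - (1 + τ : ℝ)) - 2))) (Ioi (1/2)) :=
    integrable_finsetSum _ (fun ρ hρ => hKi2 ρ hρ)
  have hWi : IntegrableOn (fun y : ℝ => (2 - 1 / y) * (‖P y‖ ^ 2 * y ^ (2 + τ))) (Ioi (1/2)) := by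
    have h1 := (integrableOn_congr_fun hsq measurableSet_Ioi).2 hKi3
    have h2 := h1.re
    refine h2.congr ?_
    exact Eventually.of_forall fun y => by
      simp only [RCLike.re_to_complex, Complex.ofReal_re]
  have hWle : ∫ y in Ioi (1/2 : ℝ), (2 - 1 / y) * (‖P y‖ ^ 2 * y ^ (2 + τ)) ≤ B * S := by
    have h1 : ((∫ y in Ioi (1/2 : ℝ), (2 - 1 / y) * (‖P y‖ ^ 2 * y ^ (2 + τ)) : ℝ) : ℂ) =
        ∑ ρ ∈ Z, ∑ ρ' ∈ Z, conj (z ρ) * z ρ' *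
          (2 * (((1/2 : ℝ) : ℂ) ^ (-(ρ + conj ρ' - (1 + τ : ℝ)))) /
            ((ρ + conj ρ' - (1 + τ : ℝ)) * ((ρ + conj ρ' - (1 + τ : ℝ)) + 1))) := by
      rw [← integral_complex_ofReal, setIntegral_congr_fun measurableSet_Ioi hsq,
        integral_finsetSum _ (fun ρ hρ => hKi2 ρ hρ)]
      refine Finset.sum_congr rfl fun ρ hρ => ?_
      rw [integral_finsetSum _ (fun ρ' hρ' => hKi ρ hρ ρ' hρ')]
      refine Finset.sum_congr rfl fun ρ' hρ' => ?_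
      rw [integral_const_mul, (kernel_int (hw ρ hρ ρ' hρ').1).2]
    have h2 : ∫ y in Ioi (1/2 : ℝ), (2 - 1 / y) * (‖P y‖ ^ 2 * y ^ (2 + τ)) ≤
        ∑ ρ ∈ Z, ∑ ρ' ∈ Z, (‖z ρ‖ ^ 2 + ‖z ρ'‖ ^ 2) / 2 *
          (4 / ‖ρ + conj ρ' - (1 + τ : ℝ)‖ ^ 2) := by
      refine (le_abs_self _).trans ?_
      rw [← Real.norm_eq_abs, ← Complex.norm_real, h1]
      refine (norm_sum_le _ _).trans (Finset.sum_le_sum fun ρ hρ => ?_)
      refine (norm_sum_le _ _).trans (Finset.sum_le_sum fun ρ' hρ' => ?_)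
      rw [norm_mul, norm_mul, RCLike.norm_conj]
      have h3 := kernel_norm (hw ρ hρ ρ' hρ').1 (hw ρ hρ ρ' hρ').2
      have h4 : ‖z ρ‖ * ‖z ρ'‖ ≤ (‖z ρ‖ ^ 2 + ‖z ρ'‖ ^ 2) / 2 := by
        nlinarith [sq_nonneg (‖z ρ‖ - ‖z ρ'‖)]
      exact mul_le_mul h4 h3 (norm_nonneg _) (by positivity)
    refine h2.trans ?_
    have e : ∀ ρ ρ' : ℂ, (‖z ρ‖ ^ 2 + ‖z ρ'‖ ^ 2) / 2 * (4 / ‖ρ + conj ρ' - (1 + τ : ℝ)‖ ^ 2) =
        ‖z ρ‖ ^ 2 / 2 * (4 / ‖ρ + conj ρ' - (1 + τ : ℝ)‖ ^ 2) +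
          ‖z ρ'‖ ^ 2 / 2 * (4 / ‖ρ' + conj ρ - (1 + τ : ℝ)‖ ^ 2) := by
      intro ρ ρ'
      have : ‖ρ' + conj ρ - (1 + τ : ℝ)‖ = ‖ρ + conj ρ' - (1 + τ : ℝ)‖ := by
        rw [← RCLike.norm_conj]
        congr 1
        simp only [map_sub, map_add, Complex.conj_conj, Complex.conj_ofReal]
        ring
      rw [this]
      ring
    simp_rw [e, Finset.sum_add_distrib]
    have h5 : ∑ ρ ∈ Z, ∑ ρ' ∈ Z, ‖z ρ‖ ^ 2 / 2 * (4 / ‖ρ + conj ρ' - (1 + τ : ℝ)‖ ^ 2) ≤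
        B * S / 2 := by
      rw [hS, Finset.mul_sum, Finset.sum_div]
      refine Finset.sum_le_sum fun ρ hρ => ?_
      rw [← Finset.mul_sum]
      have := mul_le_mul_of_nonneg_left (hB' ρ hρ) (show 0 ≤ ‖z ρ‖ ^ 2 / 2 by positivity)
      linarith
    have h6 : ∑ ρ ∈ Z, ∑ ρ' ∈ Z, ‖z ρ'‖ ^ 2 / 2 * (4 / ‖ρ' + conj ρ - (1 + τ : ℝ)‖ ^ 2) ≤
        B * S / 2 := by
      rw [Finset.sum_comm]
      exact h5
    linarith
  have hPi : IntegrableOn (fun y : ℝ => ‖P y‖ ^ 2 * y ^ (2 + τ)) (Ioi 1) := by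
    have hsub : Ioi (1:ℝ) ⊆ Ioi (1/2) := Ioi_subset_Ioi (by norm_num)
    refine Integrable.mono' (hWi.mono_set hsub) ?_ ?_
    · refine ContinuousOn.aestronglyMeasurable ?_ measurableSet_Ioi
      intro y hy
      have hy1 : (1:ℝ) < y := hy
      refine ContinuousAt.continuousWithinAt ?_
      refine ContinuousAt.mul ?_ (Real.continuousAt_rpow_const _ _ (Or.inl (by linarith)))
      refine ContinuousAt.pow (ContinuousAt.norm ?_) 2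
      rw [hP]
      refine tendsto_finsetSum _ fun ρ _ => ?_
      exact continuousAt_const.mul (Complex.continuousAt_ofReal_cpow_const _ _ (Or.inr (by linarith)))
    · refine (ae_restrict_mem measurableSet_Ioi).mono fun y hy => ?_
      have hy1 : (1:ℝ) < y := hy
      have h0 : 0 ≤ ‖P y‖ ^ 2 * y ^ (2 + τ) := by
        have := Real.rpow_nonneg (show (0:ℝ) ≤ y by linarith) (2 + τ)
        positivity
      rw [Real.norm_of_nonneg h0]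
      have h1 : 1 ≤ 2 - 1 / y := by
        have : 1 / y ≤ 1 := by rw [div_le_one (by linarith)]; exact hy1.le
        linarith
      nlinarith
  have hPle : ∫ y in Ioi (1:ℝ), ‖P y‖ ^ 2 * y ^ (2 + τ) ≤ B * S := by
    have hsub : Ioi (1:ℝ) ⊆ Ioi (1/2) := Ioi_subset_Ioi (by norm_num)
    have h1 : ∫ y in Ioi (1:ℝ), ‖P y‖ ^ 2 * y ^ (2 + τ) ≤
        ∫ y in Ioi (1:ℝ), (2 - 1 / y) * (‖P y‖ ^ 2 * y ^ (2 + τ)) := by
      refine setIntegral_mono_on hPi (hWi.mono_set hsub) measurableSet_Ioi fun y hy => ?_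
      have hy1 : (1:ℝ) < y := hy
      have h0 : 0 ≤ ‖P y‖ ^ 2 * y ^ (2 + τ) := by
        have := Real.rpow_nonneg (show (0:ℝ) ≤ y by linarith) (2 + τ)
        positivity
      have h1 : 1 ≤ 2 - 1 / y := by
        have : 1 / y ≤ 1 := by rw [div_le_one (by linarith)]; exact hy1.le
        linarith
      nlinarith
    have h2 : ∫ y in Ioi (1:ℝ), (2 - 1 / y) * (‖P y‖ ^ 2 * y ^ (2 + τ)) ≤
        ∫ y in Ioi (1/2:ℝ), (2 - 1 / y) * (‖P y‖ ^ 2 * y ^ (2 + τ)) := by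
      refine setIntegral_mono_set hWi ?_ (LE.le.eventuallyLE hsub)
      refine (ae_restrict_mem measurableSet_Ioi).mono fun y hy => ?_
      have hy1 : (1/2:ℝ) < y := hy
      have h0 : 0 ≤ ‖P y‖ ^ 2 * y ^ (2 + τ) := by
        have := Real.rpow_nonneg (show (0:ℝ) ≤ y by linarith) (2 + τ)
        positivity
      have h1 : 0 ≤ 2 - 1 / y := by
        have : 1 / y ≤ 2 := by rw [div_le_iff₀ (by linarith)]; linarith
        linarith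
      exact mul_nonneg h1 h0
    exact h1.trans (h2.trans hWle)
  -- the main identity
  have hmain : ((S : ℝ) : ℂ) = ∫ y in Ioi (1:ℝ), P y * c y := by
    have h1 : ∀ y : ℝ, P y * c y = ∑ ρ ∈ Z, conj (z ρ) * ((y : ℂ) ^ (-ρ - 1) * c y) := by
      intro y
      rw [hP]
      simp only [Finset.sum_mul]
      refine Finset.sum_congr rfl fun ρ _ => ?_
      ring
    simp_rw [h1]
    rw [integral_finsetSum _ (fun ρ hρ => (hzi ρ hρ).const_mul _)]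
    rw [hS]
    push_cast
    refine Finset.sum_congr rfl fun ρ hρ => ?_
    rw [integral_const_mul, hz ρ hρ, ← Complex.normSq_eq_conj_mul_self, Complex.normSq_eq_norm_sq]
    push_cast
    rfl
  have hSle : S ≤ ∫ y in Ioi (1:ℝ), (B / 2 * (‖c y‖ ^ 2 * y ^ (-(2 + τ))) +
      1 / (2 * B) * (‖P y‖ ^ 2 * y ^ (2 + τ))) := by
    refine (le_abs_self _).trans ?_
    rw [← Real.norm_eq_abs, ← Complex.norm_real, hmain]
    refine norm_integral_le_of_norm_le ((hci.const_mul _).add (hPi.const_mul _)) ?_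
    refine (ae_restrict_mem measurableSet_Ioi).mono fun y hy => ?_
    have hy1 : (1:ℝ) < y := hy
    have hy0 : 0 < y := by linarith
    rw [norm_mul]
    set u := y ^ (2 + τ) with hu
    have hu0 : 0 < u := Real.rpow_pos_of_pos hy0 _
    rw [Real.rpow_neg hy0.le, ← hu]
    have e : B / 2 * (‖c y‖ ^ 2 * u⁻¹) + 1 / (2 * B) * (‖P y‖ ^ 2 * u) - ‖P y‖ * ‖c y‖ =
        (B * ‖c y‖ * u⁻¹ - ‖P y‖) ^ 2 * u / (2 * B) := by
      field_simp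
      ring
    have : 0 ≤ (B * ‖c y‖ * u⁻¹ - ‖P y‖) ^ 2 * u / (2 * B) := by positivity
    linarith
  rw [integral_add (hci.const_mul _) (hPi.const_mul _), integral_const_mul, integral_const_mul,
    ← hQ] at hSle
  have h7 : 1 / (2 * B) * ∫ y in Ioi (1:ℝ), ‖P y‖ ^ 2 * y ^ (2 + τ) ≤ 1 / (2 * B) * (B * S) := by
    gcongr
  have h8 : 1 / (2 * B) * (B * S) = S / 2 := by field_simp
  linarith

end

end Pool.Agent.TH822.DZ
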