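import Pool.Agent.TH822.DZ.Row
set_option autoImplicit false

/-!
# The number of the zeros in a block
-/

open MeasureTheory Filter Topology Set

namespace Pool.Agent.TH822.DZ

noncomputable section

open scoped ComplexConjugate
open Pool.Agent.H437R2 H370

variable {f g : ℕ → ℂ} {B : ℝ} {N0 : ℕ}

theorem block {F : ℂ → ℂ} (hF : GoodL F) (hD : Dat f g B N0)
    (hM : ∀ ρ : ℂ, F ρ = 0 → 1 / 2 < ρ.re → ρ.re < 1 → 1 ≤ ρ.im →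
      HasMellin (fun y : ℝ => Sf f ⌊y⌋₊) (-ρ) 0)
    {b c0 : ℝ} (hc0 : 0 < c0)
    (hP : ∀ ρ : ℂ, 1 / 2 ≤ ρ.re → ρ.re ≤ b → c0 ≤ ‖P0 f g N0 ρ‖)
    {τ : ℝ} (hτ : 0 < τ) (hτ1 : τ ≤ 1) {K : ℕ} (hK : 4 + τ ≤ K * τ) :
    ∃ C : ℝ, 0 < C ∧ ∀ (X : ℕ) (Z : Finset ℂ), 4 ≤ X → N0 ≤ X →
    (∀ ρ ∈ Z, IsR F τ ρ ∧ ρ.re ≤ b ∧ ρ.im ≤ (X:ℝ) ^ K) →
    (Z.card : ℝ) ≤ C * ((X:ℝ) ^ K * (X:ℝ) ^ (-(τ / 2))) * Real.log ((X:ℝ) ^ K) := by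
  obtain ⟨C0, hC0, hrow⟩ := row hF hτ
  set D0 : ℝ := DT (1 + τ / 2) + 8 * (B + CC f g N0) ^ 2 / τ with hD0
  have hD00 : 0 ≤ D0 := by
    have := DT_nonneg (1 + τ / 2)
    positivity
  refine ⟨64 / c0 ^ 2 * C0 * (D0 + 1), by positivity, fun X Z hX hXN hZ => ?_⟩
  have hXr : (4:ℝ) ≤ X := by exact_mod_cast hX
  have hX0 : (0:ℝ) < X := by linarith
  have hK1 : K ≠ 0 := by
    rintro rfl
    simp at hK
    linarith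
  set T : ℝ := (X:ℝ) ^ K with hT
  have hT4 : 4 ≤ T := by
    rw [hT]
    calc (4:ℝ) ≤ X := hXr
      _ = (X:ℝ) ^ 1 := (pow_one _).symm
      _ ≤ (X:ℝ) ^ K := pow_le_pow_right₀ (by linarith) (Nat.one_le_iff_ne_zero.2 hK1)
  have hT0 : 0 < T := by linarith
  set h : ℝ := 1 / (4 * T) with hh
  have hhT : h * (4 * T) = 1 := by rw [hh]; field_simp
  have hh0 : 0 < h := by rw [hh]; positivity
  have hh1 : h ≤ 1 / 4 := by nlinarith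
  obtain ⟨hi, hL2⟩ := cR_L2 hD hτ hτ1 hK (by omega : 2 ≤ X) hXN hT hhT
  set z : ℂ → ℂ := fun ρ => -((Complex.exp (h * ρ) - 1) / ρ * P0 f g N0 ρ) with hz
  have hZre : ∀ ρ ∈ Z, 0 < ρ.re := fun ρ hρ => by linarith [(hZ ρ hρ).1.2.1]
  have hlog : 0 < Real.log T := Real.log_pos (by linarith)
  have hMe : ∀ ρ ∈ Z, HasMellin (fun y : ℝ => Sf f ⌊y⌋₊) (-ρ) 0 := fun ρ hρ => by
    obtain ⟨h1, h2, h3, h4⟩ := (hZ ρ hρ).1
    exact hM ρ h1 (by linarith) h3 (by linarith)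
  have hci : ∀ ρ ∈ Z, _ := fun ρ hρ => cR_integral hD hXN (by omega : 2 ≤ X) (hZre ρ hρ)
    (hMe ρ hρ) hh0.le hh1
  have hb := bessel hτ Z (fun ρ hρ => (hZ ρ hρ).1.2.1) (fun ρ hρ => (hZ ρ hρ).1.2.2.1)
    (cR f g X h) hi z (fun ρ hρ => (hci ρ hρ).2) (fun ρ hρ => (hci ρ hρ).1)
    (C0 * Real.log T) (by positivity)
    (hrow T Z hT4 (fun ρ hρ => ⟨(hZ ρ hρ).1, (hZ ρ hρ).2.2⟩))
  have hlow : ∀ ρ ∈ Z, h ^ 2 * c0 ^ 2 / 4 ≤ ‖z ρ‖ ^ 2 := by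
    intro ρ hρ
    obtain ⟨⟨hz0, hre, hre1, him⟩, hrb, himT⟩ := hZ ρ hρ
    have h2 : ‖ρ‖ ≤ 2 * T := by
      have := Complex.norm_le_abs_re_add_abs_im ρ
      have h3 : |ρ.re| ≤ 1 := by rw [abs_le]; constructor <;> linarith
      rw [abs_of_pos (by linarith : (0:ℝ) < ρ.im)] at this
      linarith
    have hρ0 : 0 < ‖ρ‖ := by
      rw [norm_pos_iff]
      rintro rfl
      simp at him
      linarith
    set w : ℂ := h * ρ with hw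
    have hwn : ‖w‖ = h * ‖ρ‖ := by
      rw [hw, norm_mul, Complex.norm_real, Real.norm_of_nonneg hh0.le]
    have hw1 : ‖w‖ ≤ 1 / 2 := by
      rw [hwn]; nlinarith
    have h4 := Complex.norm_exp_sub_one_sub_id_le (show ‖w‖ ≤ 1 by linarith)
    have h5 : ‖w‖ / 2 ≤ ‖Complex.exp w - 1‖ := by
      have := norm_sub_norm_le w (-(Complex.exp w - 1 - w))
      have e : w - -(Complex.exp w - 1 - w) = Complex.exp w - 1 := by ring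
      rw [e, norm_neg] at this
      nlinarith [norm_nonneg w]
    have h6 : h / 2 ≤ ‖(Complex.exp w - 1) / ρ‖ := by
      rw [norm_div, le_div_iff₀ hρ0]
      have : h / 2 * ‖ρ‖ = ‖w‖ / 2 := by rw [hwn]; ring
      linarith
    have h7 : h / 2 * c0 ≤ ‖z ρ‖ := by
      rw [hz]
      simp only
      rw [norm_neg, norm_mul]
      exact mul_le_mul h6 (hP ρ (by linarith) hrb) hc0.le (norm_nonneg _)
    calc h ^ 2 * c0 ^ 2 / 4 = (h / 2 * c0) ^ 2 := by ring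
      _ ≤ ‖z ρ‖ ^ 2 := by gcongr
  have hcard : (Z.card : ℝ) * (h ^ 2 * c0 ^ 2 / 4) ≤ ∑ ρ ∈ Z, ‖z ρ‖ ^ 2 := by
    rw [← nsmul_eq_mul]
    exact Finset.card_nsmul_le_sum Z _ _ hlow
  have hXp : 0 < (X:ℝ) ^ (-(τ / 2)) := Real.rpow_pos_of_pos hX0 _
  have h7 : (Z.card : ℝ) * (h ^ 2 * c0 ^ 2 / 4) ≤
      C0 * Real.log T * (D0 * (T⁻¹ * (X:ℝ) ^ (-(τ / 2)))) := by
    refine hcard.trans (hb.trans ?_)
    gcongr
  have e : (Z.card : ℝ) = 64 / c0 ^ 2 * T ^ 2 * ((Z.card : ℝ) * (h ^ 2 * c0 ^ 2 / 4)) := by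
    rw [hh]; field_simp; ring
  rw [e]
  calc 64 / c0 ^ 2 * T ^ 2 * ((Z.card : ℝ) * (h ^ 2 * c0 ^ 2 / 4)) ≤
      64 / c0 ^ 2 * T ^ 2 * (C0 * Real.log T * (D0 * (T⁻¹ * (X:ℝ) ^ (-(τ / 2))))) := by gcongr
    _ = 64 / c0 ^ 2 * C0 * D0 * (T * (X:ℝ) ^ (-(τ / 2))) * Real.log T := by
        field_simp
    _ ≤ _ := by
        gcongr
        linarith

end

end Pool.Agent.TH822.DZ
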