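import Pool.Agent.TH822.DZ.Ari
set_option autoImplicit false

/-!
# The mean square of the test function
-/

open MeasureTheory Filter Topology Set

namespace Pool.Agent.TH822.DZ

noncomputable section

open scoped ComplexConjugate
open Pool.Agent.H437R2

lemma div_summable' {x : ℝ} (hx : 1 < x) :
    Summable (fun n : ℕ => ((n.divisors.card : ℝ)) ^ 2 * (n : ℝ) ^ (-x)) := by
  set z : ArithmeticFunction ℂ := (ArithmeticFunction.zeta : ArithmeticFunction ℂ) with hz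
  have hs : (1:ℝ) < ((x : ℝ) : ℂ).re := by
    rw [Complex.ofReal_re]; exact hx
  have h1 : LSeriesSummable (fun n => z n) ((x : ℝ) : ℂ) :=
    ArithmeticFunction.LSeriesSummable_zeta_iff.2 hs
  have h2 := ArithmeticFunction.LSeriesSummable_mul h1 h1
  have h3 := ArithmeticFunction.LSeriesSummable_mul h2 h2
  have hd : ∀ n : ℕ, (z * z) n = (n.divisors.card : ℂ) := by
    intro n
    rw [hz, ArithmeticFunction.coe_mul_zeta_apply]
    have : ∀ i ∈ n.divisors, (ArithmeticFunction.zeta : ArithmeticFunction ℂ) i = 1 := by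
      intro i hi
      rw [ArithmeticFunction.natCoe_apply,
        ArithmeticFunction.zeta_apply_ne (Nat.pos_of_mem_divisors hi).ne']
      simp
    rw [Finset.sum_congr rfl this]
    simp
  have h4 := h3.norm
  refine Summable.of_nonneg_of_le (fun n => mul_nonneg (sq_nonneg _)
    (Real.rpow_nonneg (Nat.cast_nonneg _) _)) (fun n => ?_) h4
  rw [LSeries.norm_term_eq]
  by_cases hn : n = 0
  · subst hn
    simp
  · rw [if_neg hn, ArithmeticFunction.mul_apply, Complex.ofReal_re, Real.rpow_neg (by positivity),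
      ← div_eq_mul_inv]
    have h5 : ‖∑ p ∈ n.divisorsAntidiagonal, (z * z) p.1 * (z * z) p.2‖ =
        ∑ p ∈ n.divisorsAntidiagonal, (p.1.divisors.card : ℝ) * (p.2.divisors.card : ℝ) := by
      simp_rw [hd]
      have : (∑ p ∈ n.divisorsAntidiagonal, (p.1.divisors.card : ℂ) * (p.2.divisors.card : ℂ)) =
          ((∑ p ∈ n.divisorsAntidiagonal, (p.1.divisors.card : ℝ) * (p.2.divisors.card : ℝ) : ℝ) : ℂ) := by
        push_cast; rfl
      have hnn : 0 ≤ ∑ p ∈ n.divisorsAntidiagonal, (p.1.divisors.card : ℝ) * (p.2.divisors.card : ℝ) :=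
        Finset.sum_nonneg (fun p _ => mul_nonneg (Nat.cast_nonneg _) (Nat.cast_nonneg _))
      rw [this, Complex.norm_real, Real.norm_of_nonneg hnn]
    rw [h5]
    exact div_le_div_of_nonneg_right (div_sq_le hn) (Real.rpow_nonneg (Nat.cast_nonneg _) _)

/-- `∑ d(n)^2 n^(-x)` -/
def DT (x : ℝ) : ℝ := ∑' n : ℕ, ((n.divisors.card : ℝ)) ^ 2 * (n : ℝ) ^ (-x)

lemma DT_nonneg (x : ℝ) : 0 ≤ DT x := tsum_nonneg fun n => by positivity

variable {f g : ℕ → ℂ} {B : ℝ} {N0 : ℕ}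

lemma sum_aX_le (hD : Dat f g B N0) {τ : ℝ} (hτ : 0 < τ) (X N : ℕ) (hX : 1 ≤ X) :
    ∑ n ∈ Finset.Ioc X N, ‖aX f g X n‖ ^ 2 * (n:ℝ) ^ (-(1 + τ)) ≤
      DT (1 + τ / 2) * (X:ℝ) ^ (-(τ / 2)) := by
  have hX0 : (0:ℝ) < X := by exact_mod_cast hX
  have h1 : ∀ n ∈ Finset.Ioc X N, ‖aX f g X n‖ ^ 2 * (n:ℝ) ^ (-(1 + τ)) ≤
      (((n.divisors.card : ℝ)) ^ 2 * (n : ℝ) ^ (-(1 + τ / 2))) * (X:ℝ) ^ (-(τ / 2)) := by
    intro n hn
    rw [Finset.mem_Ioc] at hn
    have hn0 : n ≠ 0 := by omega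
    have hnp : (0:ℝ) < n := by exact_mod_cast Nat.pos_of_ne_zero hn0
    have e : (n:ℝ) ^ (-(1 + τ)) = (n:ℝ) ^ (-(1 + τ / 2)) * (n:ℝ) ^ (-(τ / 2)) := by
      rw [← Real.rpow_add hnp]; congr 1; ring
    have h2 : ‖aX f g X n‖ ^ 2 ≤ ((n.divisors.card : ℝ)) ^ 2 := by
      have := aX_le hD X n hn0
      gcongr
    have h3 : (n:ℝ) ^ (-(τ / 2)) ≤ (X:ℝ) ^ (-(τ / 2)) := by
      apply Real.rpow_le_rpow_of_nonpos hX0
      · exact_mod_cast hn.1.le
      · linarith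
    rw [e]
    calc ‖aX f g X n‖ ^ 2 * ((n:ℝ) ^ (-(1 + τ / 2)) * (n:ℝ) ^ (-(τ / 2)))
        ≤ ((n.divisors.card : ℝ)) ^ 2 * ((n:ℝ) ^ (-(1 + τ / 2)) * (X:ℝ) ^ (-(τ / 2))) := by
          gcongr
      _ = _ := by ring
  refine (Finset.sum_le_sum h1).trans ?_
  rw [← Finset.sum_mul]
  refine mul_le_mul_of_nonneg_right ?_ (by positivity)
  exact (div_summable' (by linarith)).sum_le_tsum _ (fun n _ => by positivity)

/-- uniform bound for `cR` -/
lemma cR_norm_le (hD : Dat f g B N0) {X : ℕ} (hX : N0 ≤ X) (h y : ℝ) :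
    ‖cR f g X h y‖ ≤ 2 * (B * X + CC f g N0) := by
  unfold cR
  refine (norm_sub_le _ _).trans ?_
  have h1 := A1_norm_le hD hX ⌊Real.exp h * y⌋₊
  have h2 := A1_norm_le hD hX ⌊y⌋₊
  linarith

/-- near range -/
lemma cR_sq_near {X : ℕ} {h y T : ℝ} (hT : h * (4 * T) = 1) (hT1 : 1 ≤ T)
    (hy : 1 < y) (hyT : y ≤ T) (N : ℕ) (hN : 2 * T ≤ N) :
    ‖cR f g X h y‖ ^ 2 ≤ ∑ n ∈ Finset.Ioc X N, ‖aX f g X n‖ ^ 2 *
      (Ico ((n:ℝ) * Real.exp (-h)) n).indicator (fun _ => (1:ℝ)) y := by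
  have hh : 0 < h := by
    by_contra hc
    push Not at hc
    nlinarith
  have hh1 : h ≤ 1 / 4 := by nlinarith
  have he1 : Real.exp (-h) ≤ 1 := by rw [Real.exp_le_one_iff]; linarith
  have he0 := Real.exp_pos (-h)
  have he2 := Real.exp_pos h
  set K := ⌊y⌋₊ with hK
  set M := ⌊Real.exp h * y⌋₊ with hM
  have hexp : Real.exp h ≤ 1 + 2 * h := by
    have h1 := Real.exp_bound_div_one_sub_of_interval hh.le (by linarith : h < 1)
    have h2 : 1 / (1 - h) ≤ 1 + 2 * h := by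
      rw [div_le_iff₀ (by linarith)]
      nlinarith
    linarith
  have hexp1 : 1 ≤ Real.exp h := Real.one_le_exp hh.le
  have hyy : y ≤ Real.exp h * y := by nlinarith
  have hyy2 : Real.exp h * y < y + 1 := by nlinarith
  have hKM : K ≤ M := Nat.floor_le_floor hyy
  have hMK : M ≤ K + 1 := by
    have : M < K + 2 := by
      rw [hM, Nat.floor_lt (by positivity)]
      have := Nat.lt_floor_add_one y
      push_cast
      rw [← hK] at this
      linarith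
    omega
  have hS0 : 0 ≤ ∑ n ∈ Finset.Ioc X N, ‖aX f g X n‖ ^ 2 *
      (Ico ((n:ℝ) * Real.exp (-h)) n).indicator (fun _ => (1:ℝ)) y := by
    refine Finset.sum_nonneg fun n _ => mul_nonneg (sq_nonneg _) ?_
    exact indicator_nonneg (fun _ _ => zero_le_one) _
  have hdec : cR f g X h y = A1 f g X M - A1 f g X K := rfl
  rw [hdec]
  rcases Nat.lt_or_ge K M with h1 | h1
  · have hMK' : M = K + 1 := by omega
    by_cases hMX : M ≤ X
    · rw [A1_zero hMX, A1_zero (hKM.trans hMX), sub_zero, norm_zero]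
      simpa using hS0
    · push Not at hMX
      have h2 : A1 f g X M - A1 f g X K = aX f g X M := by
        unfold A1
        rw [hMK', Finset.sum_Ioc_succ_top (by omega)]
        ring
      rw [h2]
      have hMr : (M:ℝ) ≤ Real.exp h * y := Nat.floor_le (by positivity)
      have hyM : y < M := by
        have := Nat.lt_floor_add_one y
        rw [← hK] at this
        rw [hMK']
        push_cast
        exact this
      have hMN : M ≤ N := by
        have : (M:ℝ) ≤ N := by nlinarith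
        exact_mod_cast this
      have hmem : y ∈ Ico ((M:ℝ) * Real.exp (-h)) M := by
        refine ⟨?_, hyM⟩
        calc (M:ℝ) * Real.exp (-h) ≤ (Real.exp h * y) * Real.exp (-h) := by gcongr
          _ = y := by rw [Real.exp_neg]; field_simp
      have hterm := Finset.single_le_sum (f := fun n : ℕ => ‖aX f g X n‖ ^ 2 *
          (Ico ((n:ℝ) * Real.exp (-h)) n).indicator (fun _ => (1:ℝ)) y)
        (fun n _ => mul_nonneg (sq_nonneg _) (indicator_nonneg (fun _ _ => zero_le_one) _))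
        (Finset.mem_Ioc.2 ⟨hMX, hMN⟩)
      simp only [indicator_of_mem hmem, mul_one] at hterm
      exact hterm
  · have : M = K := le_antisymm h1 hKM
    rw [this, sub_self, norm_zero]
    simpa using hS0

lemma cR_measurable (X : ℕ) (h : ℝ) : Measurable (cR f g X h) := by
  unfold cR
  have h1 : Measurable (fun n : ℕ => A1 f g X n) := measurable_from_nat
  have h2 : Measurable (fun y : ℝ => A1 f g X ⌊y⌋₊) := h1.comp Nat.measurable_floor
  have h3 : Measurable (fun y : ℝ => A1 f g X ⌊Real.exp h * y⌋₊) :=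
    h2.comp (measurable_const.mul measurable_id)
  exact h3.sub h2

lemma ind_int {τ : ℝ} (hτ : 0 < τ) (hτ1 : τ ≤ 1) (n : ℕ) (hn : 1 ≤ n) {h : ℝ} (hh : 0 < h)
    (hh1 : h ≤ 1 / 4) :
    IntegrableOn (fun y : ℝ => (Ico ((n:ℝ) * Real.exp (-h)) n).indicator (fun _ => (1:ℝ)) y *
      y ^ (-(2 + τ))) (Ioi 1) ∧
    ∫ y in Ioi (1:ℝ), (Ico ((n:ℝ) * Real.exp (-h)) n).indicator (fun _ => (1:ℝ)) y *
      y ^ (-(2 + τ)) ≤ 3 * h * (n:ℝ) ^ (-(1 + τ)) := by
  have hn0 : (0:ℝ) < n := by exact_mod_cast hn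
  have he0 := Real.exp_pos (-h)
  set a := (n:ℝ) * Real.exp (-h) with ha
  have ha0 : 0 < a := by positivity
  have e : ∀ y : ℝ, (Ico a n).indicator (fun _ => (1:ℝ)) y * y ^ (-(2 + τ)) =
      (Ico a n).indicator (fun y => y ^ (-(2 + τ))) y := by
    intro y
    by_cases hy : y ∈ Ico a (n:ℝ)
    · rw [indicator_of_mem hy, indicator_of_mem hy, one_mul]
    · rw [indicator_of_notMem hy, indicator_of_notMem hy, zero_mul]
  simp_rw [e]
  have hint : IntegrableOn (fun y : ℝ => y ^ (-(2 + τ))) (Ioi 1) :=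
    integrableOn_Ioi_rpow_of_lt (by linarith) one_pos
  constructor
  · exact hint.indicator measurableSet_Ico
  · rw [setIntegral_indicator measurableSet_Ico]
    have h1 : ∀ y ∈ Ioi (1:ℝ) ∩ Ico a n, ‖y ^ (-(2 + τ))‖ ≤ a ^ (-(2 + τ)) := by
      intro y hy
      have hy1 : (1:ℝ) < y := hy.1
      rw [Real.norm_of_nonneg (Real.rpow_nonneg (by linarith) _)]
      exact Real.rpow_le_rpow_of_nonpos ha0 hy.2.1 (by linarith)
    have hvol : volume (Ioi (1:ℝ) ∩ Ico a (n:ℝ)) < ⊤ :=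
      (measure_mono inter_subset_right).trans_lt
        (by rw [Real.volume_Ico]; exact ENNReal.ofReal_lt_top)
    have h2 := norm_setIntegral_le_of_norm_le_const hvol h1
    have h3 : volume.real (Ioi (1:ℝ) ∩ Ico a (n:ℝ)) ≤ n - a := by
      have hle : a ≤ n := by
        rw [ha]
        have : Real.exp (-h) ≤ 1 := by rw [Real.exp_le_one_iff]; linarith
        nlinarith
      have h4 : volume.real (Ioi (1:ℝ) ∩ Ico a (n:ℝ)) ≤ volume.real (Ico a (n:ℝ)) :=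
        measureReal_mono inter_subset_right (by rw [Real.volume_Ico]; exact ENNReal.ofReal_ne_top)
      rw [Real.volume_real_Ico_of_le hle] at h4
      exact h4
    have h5 : (n:ℝ) - a ≤ n * h := by
      rw [ha]
      have := Real.one_sub_le_exp_neg h
      nlinarith
    have h6 : a ^ (-(2 + τ)) ≤ 3 * (n:ℝ) ^ (-(2 + τ)) := by
      rw [ha, Real.mul_rpow hn0.le he0.le, ← Real.exp_mul]
      have : Real.exp (-h * -(2 + τ)) ≤ 3 := by
        have h7 : Real.exp (-h * -(2 + τ)) ≤ Real.exp 1 := by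
          rw [Real.exp_le_exp]; nlinarith
        have := Real.exp_one_lt_d9
        linarith
      have hp : 0 ≤ (n:ℝ) ^ (-(2 + τ)) := by positivity
      nlinarith
    refine (le_abs_self _).trans (h2.trans ?_)
    have e2 : (n:ℝ) ^ (-(1 + τ)) = (n:ℝ) ^ (-(2 + τ)) * n := by
      conv_rhs => rw [← Real.rpow_one (n:ℝ), ← Real.rpow_mul hn0.le, ← Real.rpow_add hn0]
      congr 1
      ring
    rw [e2]
    have h8 : 0 ≤ volume.real (Ioi (1:ℝ) ∩ Ico a (n:ℝ)) := measureReal_nonneg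
    calc a ^ (-(2 + τ)) * volume.real (Ioi (1:ℝ) ∩ Ico a (n:ℝ))
        ≤ (3 * (n:ℝ) ^ (-(2 + τ))) * (n * h) := by
          apply mul_le_mul h6 (h3.trans h5) h8 (by positivity)
      _ = _ := by ring

lemma cR_L2 (hD : Dat f g B N0) {τ : ℝ} (hτ : 0 < τ) (hτ1 : τ ≤ 1) {K : ℕ}
    (hK : 4 + τ ≤ K * τ) {X : ℕ} (hX : 2 ≤ X) (hXN : N0 ≤ X) {h T : ℝ} (hTdef : T = (X:ℝ) ^ K)
    (hT : h * (4 * T) = 1) :
    IntegrableOn (fun y : ℝ => ‖cR f g X h y‖ ^ 2 * y ^ (-(2 + τ))) (Ioi 1) ∧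
    ∫ y in Ioi (1:ℝ), ‖cR f g X h y‖ ^ 2 * y ^ (-(2 + τ)) ≤
      (DT (1 + τ / 2) + 8 * (B + CC f g N0) ^ 2 / τ) * (T⁻¹ * (X:ℝ) ^ (-(τ / 2))) := by
  have hXr : (2:ℝ) ≤ X := by exact_mod_cast hX
  have hX0 : (0:ℝ) < X := by linarith
  have hT1 : 1 ≤ T := by rw [hTdef]; exact one_le_pow₀ (by linarith)
  have hT0 : 0 < T := by linarith
  have hB1 := hD.B1
  have hCC : 0 ≤ CC f g N0 := CC_nonneg
  set Bc : ℝ := B + CC f g N0 with hBc
  have hBc0 : 0 ≤ Bc := by linarith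
  have hh : 0 < h := by
    by_contra hc
    push Not at hc
    nlinarith
  have hh1 : h ≤ 1 / 4 := by nlinarith
  obtain ⟨N, hNT⟩ := exists_nat_ge (2 * T)
  set P : ℝ → ℝ := fun y => (∑ n ∈ Finset.Ioc X N, ‖aX f g X n‖ ^ 2 *
      ((Ico ((n:ℝ) * Real.exp (-h)) n).indicator (fun _ => (1:ℝ)) y * y ^ (-(2 + τ)))) +
      4 * Bc ^ 2 * X ^ 2 * T ^ (-(1 + τ / 2)) * y ^ (-(1 + τ / 2)) with hP
  have hpt : ∀ y ∈ Ioi (1:ℝ), ‖cR f g X h y‖ ^ 2 * y ^ (-(2 + τ)) ≤ P y := by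
    intro y hy
    have hy1 : (1:ℝ) < y := hy
    have hy0 : 0 < y := by linarith
    have hS0 : 0 ≤ ∑ n ∈ Finset.Ioc X N, ‖aX f g X n‖ ^ 2 *
        (Ico ((n:ℝ) * Real.exp (-h)) n).indicator (fun _ => (1:ℝ)) y := by
      refine Finset.sum_nonneg fun n _ => mul_nonneg (sq_nonneg _) ?_
      exact indicator_nonneg (fun _ _ => zero_le_one) _
    have hkey : ‖cR f g X h y‖ ^ 2 ≤ (∑ n ∈ Finset.Ioc X N, ‖aX f g X n‖ ^ 2 *
        (Ico ((n:ℝ) * Real.exp (-h)) n).indicator (fun _ => (1:ℝ)) y) +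
          4 * Bc ^ 2 * X ^ 2 * (y / T) ^ (1 + τ / 2) := by
      have h3 : 0 ≤ (y / T) ^ (1 + τ / 2) := by positivity
      rcases le_or_gt y T with hyT | hyT
      · have h4 := cR_sq_near (f := f) (g := g) (X := X) hT hT1 hy1 hyT N hNT
        have h5 : 0 ≤ 4 * Bc ^ 2 * X ^ 2 * (y / T) ^ (1 + τ / 2) := by positivity
        linarith
      · have h1 := cR_norm_le hD hXN h y
        have h2 : ‖cR f g X h y‖ ^ 2 ≤ 4 * Bc ^ 2 * X ^ 2 := by
          have h6 : ‖cR f g X h y‖ ≤ 2 * (Bc * X) := by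
            refine h1.trans ?_
            rw [hBc]
            nlinarith
          calc _ ≤ (2 * (Bc * X)) ^ 2 := by gcongr
            _ = _ := by ring
        have h3 : 1 ≤ (y / T) ^ (1 + τ / 2) :=
          Real.one_le_rpow ((one_le_div hT0).2 hyT.le) (by linarith)
        have h7 : 4 * Bc ^ 2 * X ^ 2 * 1 ≤ 4 * Bc ^ 2 * X ^ 2 * (y / T) ^ (1 + τ / 2) :=
          mul_le_mul_of_nonneg_left h3 (by positivity)
        linarith
    have hyp : 0 ≤ y ^ (-(2 + τ)) := by positivity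
    refine (mul_le_mul_of_nonneg_right hkey hyp).trans (le_of_eq ?_)
    rw [hP]
    simp only
    rw [add_mul, Finset.sum_mul]
    congr 1
    · refine Finset.sum_congr rfl fun n _ => ?_
      ring
    · rw [Real.div_rpow hy0.le hT0.le, Real.rpow_neg hT0.le]
      have : y ^ (-(1 + τ / 2)) = y ^ (1 + τ / 2) * y ^ (-(2 + τ)) := by
        rw [← Real.rpow_add hy0]; congr 1; ring
      rw [this]
      field_simp
  have hi1 : ∀ n ∈ Finset.Ioc X N, IntegrableOn (fun y : ℝ => ‖aX f g X n‖ ^ 2 *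
      ((Ico ((n:ℝ) * Real.exp (-h)) n).indicator (fun _ => (1:ℝ)) y * y ^ (-(2 + τ)))) (Ioi 1) := by
    intro n hn
    rw [Finset.mem_Ioc] at hn
    exact (ind_int hτ hτ1 n (by omega) hh hh1).1.const_mul _
  have hi2 : IntegrableOn (fun y : ℝ => 4 * Bc ^ 2 * X ^ 2 * T ^ (-(1 + τ / 2)) *
      y ^ (-(1 + τ / 2))) (Ioi 1) :=
    (integrableOn_Ioi_rpow_of_lt (by linarith) one_pos).const_mul _
  have hi3 : IntegrableOn (fun y : ℝ => (∑ n ∈ Finset.Ioc X N, ‖aX f g X n‖ ^ 2 *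
      ((Ico ((n:ℝ) * Real.exp (-h)) n).indicator (fun _ => (1:ℝ)) y * y ^ (-(2 + τ))))) (Ioi 1) :=
    integrable_finsetSum _ hi1
  have hiP : IntegrableOn P (Ioi 1) := hi3.add hi2
  have hnn : ∀ y ∈ Ioi (1:ℝ), 0 ≤ ‖cR f g X h y‖ ^ 2 * y ^ (-(2 + τ)) := by
    intro y hy
    have hy1 : (1:ℝ) < y := hy
    exact mul_nonneg (sq_nonneg _) (Real.rpow_nonneg (by linarith) _)
  have hmeas : AEStronglyMeasurable (fun y : ℝ => ‖cR f g X h y‖ ^ 2 * y ^ (-(2 + τ)))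
      (volume.restrict (Ioi 1)) := by
    refine Measurable.aestronglyMeasurable ?_
    exact ((cR_measurable X h).norm.pow_const 2).mul (measurable_id.pow_const _)
  have hi : IntegrableOn (fun y : ℝ => ‖cR f g X h y‖ ^ 2 * y ^ (-(2 + τ))) (Ioi 1) := by
    refine Integrable.mono' hiP hmeas ?_
    refine (ae_restrict_mem measurableSet_Ioi).mono fun y hy => ?_
    rw [Real.norm_of_nonneg (hnn y hy)]
    exact hpt y hy
  refine ⟨hi, ?_⟩
  refine (setIntegral_mono_on hi hiP measurableSet_Ioi hpt).trans ?_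
  rw [hP]
  rw [integral_add hi3 hi2, integral_const_mul, integral_finsetSum _ hi1,
    integral_Ioi_rpow_of_lt (by linarith) one_pos]
  have hs : ∑ n ∈ Finset.Ioc X N, ∫ y in Ioi (1:ℝ), ‖aX f g X n‖ ^ 2 *
      ((Ico ((n:ℝ) * Real.exp (-h)) n).indicator (fun _ => (1:ℝ)) y * y ^ (-(2 + τ))) ≤
      3 * h * (DT (1 + τ / 2) * (X:ℝ) ^ (-(τ / 2))) := by
    have h1 : ∀ n ∈ Finset.Ioc X N, ∫ y in Ioi (1:ℝ), ‖aX f g X n‖ ^ 2 *
      ((Ico ((n:ℝ) * Real.exp (-h)) n).indicator (fun _ => (1:ℝ)) y * y ^ (-(2 + τ))) ≤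
        3 * h * (‖aX f g X n‖ ^ 2 * (n:ℝ) ^ (-(1 + τ))) := by
      intro n hn
      rw [Finset.mem_Ioc] at hn
      rw [integral_const_mul]
      have := mul_le_mul_of_nonneg_left (ind_int hτ hτ1 n (by omega) hh hh1).2
        (sq_nonneg ‖aX f g X n‖)
      refine this.trans (le_of_eq ?_)
      ring
    refine (Finset.sum_le_sum h1).trans ?_
    rw [← Finset.mul_sum]
    exact mul_le_mul_of_nonneg_left (sum_aX_le hD hτ X N (by omega)) (by positivity)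
  have e1 : h = T⁻¹ / 4 := by
    have : h = 1 / (4 * T) := by field_simp; linarith
    rw [this]
    field_simp
  have hDT := DT_nonneg (1 + τ / 2)
  have hXp : 0 < (X:ℝ) ^ (-(τ / 2)) := Real.rpow_pos_of_pos hX0 _
  have e4 : (X:ℝ) ^ 2 * T ^ (-(1 + τ / 2)) ≤ T⁻¹ * (X:ℝ) ^ (-(τ / 2)) := by
    have e5 : T ^ (-(1 + τ / 2)) = T⁻¹ * (X:ℝ) ^ (-((K:ℝ) * (τ / 2))) := by
      rw [neg_add, Real.rpow_add hT0, Real.rpow_neg_one]
      congr 1
      rw [hTdef, ← Real.rpow_natCast, ← Real.rpow_mul hX0.le]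
      congr 1
      ring
    rw [e5]
    have e6 : (X:ℝ) ^ 2 * (X:ℝ) ^ (-((K:ℝ) * (τ / 2))) ≤ (X:ℝ) ^ (-(τ / 2)) := by
      rw [← Real.rpow_natCast, ← Real.rpow_add hX0]
      apply Real.rpow_le_rpow_of_exponent_le (by linarith)
      push_cast
      linarith
    have hTi : 0 ≤ T⁻¹ := by positivity
    calc (X:ℝ) ^ 2 * (T⁻¹ * (X:ℝ) ^ (-((K:ℝ) * (τ / 2)))) =
        T⁻¹ * ((X:ℝ) ^ 2 * (X:ℝ) ^ (-((K:ℝ) * (τ / 2)))) := by ring
      _ ≤ _ := mul_le_mul_of_nonneg_left e6 hTi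
  have f1 : 3 * h * (DT (1 + τ / 2) * (X:ℝ) ^ (-(τ / 2))) ≤
      DT (1 + τ / 2) * (T⁻¹ * (X:ℝ) ^ (-(τ / 2))) := by
    rw [e1]
    have : 0 ≤ DT (1 + τ / 2) * (T⁻¹ * (X:ℝ) ^ (-(τ / 2))) := by positivity
    linarith
  have f2 : 4 * Bc ^ 2 * (X:ℝ) ^ 2 * T ^ (-(1 + τ / 2)) *
      (-(1:ℝ) ^ (-(1 + τ / 2) + 1 : ℝ) / (-(1 + τ / 2) + 1)) ≤
      8 * Bc ^ 2 / τ * (T⁻¹ * (X:ℝ) ^ (-(τ / 2))) := by
    rw [Real.one_rpow]
    have e7 : (-(1:ℝ)) / (-(1 + τ / 2) + 1) = 2 / τ := by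
      have h9 : (-(1 + τ / 2) + 1) = -(τ / 2) := by ring
      rw [h9, neg_div_neg_eq]
      field_simp
    rw [e7]
    calc 4 * Bc ^ 2 * (X:ℝ) ^ 2 * T ^ (-(1 + τ / 2)) * (2 / τ) =
        8 * Bc ^ 2 / τ * ((X:ℝ) ^ 2 * T ^ (-(1 + τ / 2))) := by ring
      _ ≤ _ := mul_le_mul_of_nonneg_left e4 (by positivity)
  rw [add_mul]
  exact add_le_add (hs.trans f1) f2

end

end Pool.Agent.TH822.DZ
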