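import Pool.Agent.TH822.DZ.L2
import Pool.Agent.H437R2.A3e
import Pool.Agent.H370R2.Local
import Pool.Agent.H370R2.Final
set_option autoImplicit false

/-!
# The rows of the matrix of the Bessel inequality
-/

open MeasureTheory Filter Topology Set

namespace Pool.Agent.TH822.DZ

noncomputable section

open scoped ComplexConjugate
open Pool.Agent.H437R2 H370

/-- the zeros considered -/
def IsR (F : ℂ → ℂ) (τ : ℝ) (ρ : ℂ) : Prop :=
  F ρ = 0 ∧ 1 / 2 + τ ≤ ρ.re ∧ ρ.re < 1 ∧ 4 ≤ ρ.im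

lemma cell_count {F : ℂ → ℂ} (hF : GoodL F) {τ : ℝ} (hτ : 0 < τ) : ∃ C : ℝ, 0 < C ∧
    ∀ (m : ℤ) (T : ℝ) (Z : Finset ℂ), 4 ≤ T → (∀ ρ ∈ Z, IsR F τ ρ ∧ ρ.im ≤ T ∧ cell ρ = m) →
    (Z.card : ℝ) ≤ C * Real.log T := by
  classical
  obtain ⟨C, hC, h⟩ := zcount hF
  refine ⟨2 * C, by positivity, fun m T Z hT hZ => ?_⟩
  rcases Z.eq_empty_or_nonempty with rfl | ⟨ρ0, hρ0⟩
  · have : 0 ≤ Real.log T := Real.log_nonneg (by linarith)
    simp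
    positivity
  set t : ℝ := m / 2 + 1 / 4 with ht
  have him : ∀ ρ ∈ Z, (m : ℝ) / 2 ≤ ρ.im ∧ ρ.im < (m : ℝ) / 2 + 1 / 2 := by
    intro ρ hρ
    obtain ⟨_, _, hcell⟩ := hZ ρ hρ
    unfold cell at hcell
    rw [Int.floor_eq_iff] at hcell
    constructor <;> linarith [hcell.1, hcell.2]
  have hm0 : 7 / 2 ≤ (m : ℝ) / 2 := by
    have h1 := (him ρ0 hρ0).2
    have h2 := (hZ ρ0 hρ0).1.2.2.2
    linarith
  have hmT : (m : ℝ) / 2 ≤ T := by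
    have h1 := (him ρ0 hρ0).1
    have h2 := (hZ ρ0 hρ0).2.1
    linarith
  have ht3 : 3 ≤ t := by rw [ht]; linarith
  have hfin := zset_finite' hF (t - 1) (t + 1) (by linarith)
  have hNN : NN F (t - 1) (t + 1) = ∑ s ∈ hfin.toFinset, mult F s := by
    unfold NN
    exact finsum_mem_eq_finite_toFinset_sum _ hfin
  have hsub : Z ⊆ hfin.toFinset := by
    intro ρ hρ
    rw [Set.Finite.mem_toFinset]
    obtain ⟨⟨h1, h2, h3, h4⟩, -, -⟩ := hZ ρ hρ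
    obtain ⟨h5, h6⟩ := him ρ hρ
    refine ⟨by linarith, h3, ?_, ?_, h1⟩
    · rw [ht]; linarith
    · rw [ht]; linarith
  have hcard : Z.card ≤ NN F (t - 1) (t + 1) := by
    rw [hNN]
    calc Z.card ≤ hfin.toFinset.card := Finset.card_le_card hsub
      _ = ∑ s ∈ hfin.toFinset, 1 := by simp
      _ ≤ _ := by
        refine Finset.sum_le_sum fun s hs => ?_
        rw [Set.Finite.mem_toFinset] at hs
        exact Loc.mult_pos' hF (by linarith [hs.2.2.1]) hs.2.2.2.2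
  have h1 : (Z.card : ℝ) ≤ NN F (t - 1) (t + 1) := by exact_mod_cast hcard
  refine h1.trans ((h t ht3).trans ?_)
  have h2 : Real.log t ≤ 2 * Real.log T := by
    calc Real.log t ≤ Real.log (T ^ 2) := by
          apply Real.log_le_log (by linarith)
          nlinarith
      _ = 2 * Real.log T := by rw [Real.log_pow]; norm_num
  nlinarith

theorem row {F : ℂ → ℂ} (hF : GoodL F) {τ : ℝ} (hτ : 0 < τ) :
    ∃ C : ℝ, 0 < C ∧ ∀ (T : ℝ) (Z : Finset ℂ), 4 ≤ T → (∀ ρ ∈ Z, IsR F τ ρ ∧ ρ.im ≤ T) →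
    ∀ ρ ∈ Z, ∑ ρ' ∈ Z, 4 / ‖ρ + conj ρ' - (1 + τ : ℝ)‖ ^ 2 ≤ C * Real.log T := by
  classical
  obtain ⟨C0, hC0, hcell⟩ := cell_count hF hτ
  have hK := KK0_pos
  set K : ℝ := 32 + 12 / τ ^ 2 with hKdef
  have hKpos : 0 < K := by positivity
  refine ⟨K * C0 * KK0, by positivity, fun T Z hT hZ ρ hρ => ?_⟩
  have hterm : ∀ ρ' ∈ Z, 4 / ‖ρ + conj ρ' - (1 + τ : ℝ)‖ ^ 2 ≤
      K / (1 + ((cell ρ : ℝ) - (cell ρ' : ℝ)) ^ 2) := by
    intro ρ' hρ'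
    have e : ‖ρ + conj ρ' - (1 + τ : ℝ)‖ ^ 2 =
        (ρ.re + ρ'.re - (1 + τ)) ^ 2 + (ρ.im - ρ'.im) ^ 2 := by
      rw [← Complex.normSq_eq_norm_sq, Complex.normSq_apply]
      simp
      ring
    have hre : τ ≤ ρ.re + ρ'.re - (1 + τ) := by
      linarith [(hZ ρ hρ).1.2.1, (hZ ρ' hρ').1.2.1]
    have h1 : τ ^ 2 + (ρ.im - ρ'.im) ^ 2 ≤ ‖ρ + conj ρ' - (1 + τ : ℝ)‖ ^ 2 := by
      rw [e]; nlinarith
    have a1 := Int.floor_le (2 * ρ.im)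
    have a2 := Int.lt_floor_add_one (2 * ρ.im)
    have a3 := Int.floor_le (2 * ρ'.im)
    have a4 := Int.lt_floor_add_one (2 * ρ'.im)
    have h2 : |(cell ρ : ℝ) - (cell ρ' : ℝ)| ≤ 2 * |ρ.im - ρ'.im| + 1 := by
      unfold cell
      have b1 := le_abs_self (ρ.im - ρ'.im)
      have b2 := neg_abs_le (ρ.im - ρ'.im)
      rw [abs_le]
      constructor <;> linarith
    have h3 : ((cell ρ : ℝ) - (cell ρ' : ℝ)) ^ 2 ≤ 8 * (ρ.im - ρ'.im) ^ 2 + 2 := by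
      rw [← sq_abs, ← sq_abs (ρ.im - ρ'.im)]
      have b3 := abs_nonneg ((cell ρ : ℝ) - (cell ρ' : ℝ))
      have b4 : |(cell ρ : ℝ) - (cell ρ' : ℝ)| ^ 2 ≤ (2 * |ρ.im - ρ'.im| + 1) ^ 2 := by gcongr
      nlinarith [sq_nonneg (2 * |ρ.im - ρ'.im| - 1)]
    have h4 : (0:ℝ) < τ ^ 2 + (ρ.im - ρ'.im) ^ 2 := by positivity
    rw [div_le_div_iff₀ (h4.trans_le h1) (by positivity)]
    have h5 : 4 * (1 + ((cell ρ : ℝ) - (cell ρ' : ℝ)) ^ 2) ≤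
        K * (τ ^ 2 + (ρ.im - ρ'.im) ^ 2) := by
      have h6 : K * (τ ^ 2 + (ρ.im - ρ'.im) ^ 2) = 32 * τ ^ 2 + 12 + 32 * (ρ.im - ρ'.im) ^ 2 +
          12 / τ ^ 2 * (ρ.im - ρ'.im) ^ 2 := by
        rw [hKdef]; field_simp; ring
      rw [h6]
      have h7 : 0 ≤ 12 / τ ^ 2 * (ρ.im - ρ'.im) ^ 2 := by positivity
      have h8 : 0 ≤ 32 * τ ^ 2 := by positivity
      linarith
    exact h5.trans (mul_le_mul_of_nonneg_left h1 hKpos.le)
  refine (Finset.sum_le_sum hterm).trans ?_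
  rw [Finset.sum_comp (fun m : ℤ => K / (1 + ((cell ρ : ℝ) - (m : ℝ)) ^ 2)) cell]
  have hm : ∀ m ∈ Finset.image cell Z, (Z.filter (fun a => cell a = m)).card •
      (K / (1 + ((cell ρ : ℝ) - (m : ℝ)) ^ 2)) ≤
      K * C0 * Real.log T * (1 / (1 + ((cell ρ : ℝ) - (m : ℝ)) ^ 2)) := by
    intro m hm
    have h1 := hcell m T (Z.filter (fun a => cell a = m)) hT (fun a ha => by
      rw [Finset.mem_filter] at ha
      exact ⟨(hZ a ha.1).1, (hZ a ha.1).2, ha.2⟩)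
    rw [nsmul_eq_mul]
    have hpos : (0:ℝ) < 1 + ((cell ρ : ℝ) - (m : ℝ)) ^ 2 := by positivity
    calc ((Z.filter (fun a => cell a = m)).card : ℝ) * (K / (1 + ((cell ρ : ℝ) - (m : ℝ)) ^ 2))
        ≤ (C0 * Real.log T) * (K / (1 + ((cell ρ : ℝ) - (m : ℝ)) ^ 2)) := by
          gcongr
      _ = _ := by ring
  refine (Finset.sum_le_sum hm).trans ?_
  rw [← Finset.mul_sum]
  have hlog : 0 ≤ Real.log T := Real.log_nonneg (by linarith)
  have := mul_le_mul_of_nonneg_left (shift_sum_le (cell ρ) (Finset.image cell Z))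
    (show 0 ≤ K * C0 * Real.log T by positivity)
  calc _ ≤ _ := this
    _ = _ := by ring

end

end Pool.Agent.TH822.DZ
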